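import Pool.Agent.R3.WClaim

/-!
# Module R3/CaseI

The second invariant if all expensive rejected jobs of `f` came before the last use `j` of the
lowest machine.

PROOF. `numI`: (constants) from `hA`: `X' > (1 - ga)(M - T) + e M + ga V + e VN - d`.
`c * hA + hB`: `(1 - al) M + c (1 - ga)(M - T) + (1 - al) VN < (1 - ga - al - e / 3) V + (c - 1) d`
(use `c_mul_e`, `c_mul_ga`).
`c * hA + c * hC`: `(1 - al) M > c (1 - al) (M - T) + V - c d` (`1 - ga - e = 1 - al`,
`ga + e = al`, `c * al = 1`). Sum: `(ga + al + e / 3) V < (2 c - 1) d ≤ (2 c - 1) V / 3`, but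
`ga + al + e / 3 > 0.9219`, `(2 c - 1) / 3 < 0.8929`, `V ≥ 0`. Contradiction. (Provide linarith with
the products such as `c * (ga * V) = al * V` and the bounds `ga * V ≥ 0.29559 * V`,
`c * d ≤ 1.8393 * d` etc.)

`caseI`: suppose not; then with `M = mk t f (n+1)`, `T = t n`, `V = vol t A n`, `VN = VN t A f n`,
`QR ≥ 0` the negation of the hypothesis `hh` of `inv2_of` (see the proof there; prove it again here:
`g t p f (n+1) = (c - 3 ga) M + ga (vol t f n + T) + c pen p f n` and `lower`) reads
`d n + (1 - ga) T > (c - 3 ga) M + ga V - X (RO A f n) + (c - 1) QR + e VN`.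
Let `L = (RO A f n).filter (· < j)`; `X (RO) ≤ X L =: X'` by `X_le_filter` (jobs `k ≥ j` of `RO` have
`k > j` as `A j ≠ none`, they are cheap by `hall`). This gives `hA` of `numI`.
`hC`: `e (V - VN + T) + X' ≤ 3 e M`: `V - VN = VO` (`vol_split`). If no job of `L` is expensive, then
`X' ≤ 0` (`X_le_zero`) and `VO + T ≤ vol t f (n+1) ≤ 3 M` (`vol_f`, `vol_le`). Else let `s ∈ L` be
expensive with the largest `t s` (`Finset.exists_max_image`); `W_holds` (at `n`, `B = t s`) gives
`X' ≤ e * t s` and `VO + t s ≤ vol t f n` (`VO_add_le`), `vol t f n + T = vol t f (n+1) ≤ 3 M`.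
`hB`: `d < (1 - ga - e / 3) V - c X'`: let `u` with `g u (j+1) = G (j+1)` (`exists_G`),
`Mu = mk t u (j+1)`, `V1 = vol t A (j+1) ≤ V`, `VNu = VN t A u (j+1)`, `QRu = ∑_{RN A u (j+1)} p`.
`lower` at `j+1` and `pen p A (j+1) = pen p A j` (`pen_succ_some`), `X (RO A u (j+1)) ≤ e Mu`
(`W_holds` at `j+1`, `le_mk`): with `hb : G (j+1) < b j + t j + pen p A j`:
`b j + t j > (c - 3 ga) Mu - e Mu + ga V1 + (c - 1) QRu + e VNu`.
`L ⊆ Rej A (j+1)`, `X' = X (L ∩ RO_u) + X (L ∩ RN_u)` (`X_split`), `X (L ∩ RO_u) ≤ e Mu` (`W_holds`),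
`c X (L ∩ RN_u) ≤ (c - 1) ∑_{L ∩ RN_u} p ≤ (c - 1) QRu` (`X_le_pen`, `HInv.pal`), so
`(c - 1) QRu ≥ c X' - (1 - al) Mu` and `b j + t j > e Mu + ga V1 + e VNu + c X'`
(`1 - ga - (1 - al) = e`). `3 Mu ≥ VO_u = V1 - VNu` (`vol_f`, `vol_le`) so `Mu + VNu ≥ V1 / 3`.
`hV : 2 b j + d j + t j ≤ V1`, `d j ≥ 0`, `d n ≤ b j`. So
`d n ≤ b j ≤ V1 - (b j + t j) < (1 - ga - e / 3) V1 - c X' ≤ (1 - ga - e / 3) V - c X'`.
-/

set_option autoImplicit false

namespace Pool.Agent.R3

open Finset

section

variable {t p : ℕ → ℝ} {A f : ℕ → Option (Fin 3)} {a b d : ℕ → ℝ} {N n : ℕ}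

theorem numI {M T V VN' X' dd : ℝ}
    (hA : (1 - ga) * (M - T) + (e * M - X') + ga * V + e * VN' < dd)
    (hB : dd < (1 - ga - e / 3) * V - c * X')
    (hC : e * (V - VN' + T) + X' ≤ 3 * e * M)
    (hT : T ≤ M) (hN : 0 ≤ VN') (hd : 3 * dd ≤ V) (hd0 : 0 ≤ dd) : False := by
  have h1 := mul_lt_mul_of_pos_left hA c_pos
  have E1 : c * ((1 - ga) * (M - T) + (e * M - X') + ga * V + e * VN') =
      (c - al) * (M - T) + (1 - al) * M - c * X' + al * V + (1 - al) * VN' := by
    linear_combination (V - (M - T)) * c_mul_ga + (M + VN') * c_mul_e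
  rw [E1] at h1
  have h2 := mul_le_mul_of_nonneg_left hC c_pos.le
  have E2 : c * (e * (V - VN' + T) + X') = (1 - al) * (V - VN' + T) + c * X' := by
    linear_combination (V - VN' + T) * c_mul_e
  have E3 : c * (3 * e * M) = 3 * (1 - al) * M := by
    linear_combination 3 * M * c_mul_e
  rw [E2, E3] at h2
  have h3 : (2 * c - al - 1) * (M - T) + (al + ga + e / 3) * V + (1 - al) * VN' <
      (2 * c - 1) * dd := by
    linear_combination 2 * h1 + h2 + hB
  have ha := al_lt
  have ha' := al_gt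
  have hg := ga_gt
  have he := e_gt
  have hc := c_gt
  have hc' := c_lt
  have p1 : 0 ≤ (2 * c - al - 1) * (M - T) := mul_nonneg (by linarith) (by linarith)
  have p2 : 0 ≤ (1 - al) * VN' := mul_nonneg (by linarith) hN
  have hV : 0 ≤ V := by linarith
  have p3 : 0.92 * V ≤ (al + ga + e / 3) * V := mul_le_mul_of_nonneg_right (by linarith) hV
  have p4 : (2 * c - 1) * dd ≤ 2.68 * dd := mul_le_mul_of_nonneg_right (by linarith) hd0
  linarith

theorem caseI (h : Run t p A a b d N) (hn : n < N) (hI : HInv t p A a d n)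
    (hf : f n ≠ none) {j : ℕ} (hj : j < n) (hAj : A j ≠ none)
    (hb : G t p (j + 1) < b j + t j + pen p A j) (hdb : d n ≤ b j)
    (hV : 2 * b j + d j + t j ≤ vol t A (j + 1))
    (hall : ∀ k ∈ RO A f n, j < k → p k ≤ ga * t k) :
    d n + t n + pen p A n ≤ g t p f (n + 1) := by
  by_contra hcon
  rw [not_le] at hcon
  have ht := h.tpos
  have hp := h.ppos
  have hTM : t n ≤ mk t f (n + 1) := le_mk ht (Nat.lt_succ_self n) hf
  have hvf : vol t f (n + 1) = vol t f n + t n := vol_succ_some hf
  have hpf : pen p f (n + 1) = pen p f n := pen_succ_some hf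
  have hlow := lower (f := f) (n := n) (fun k hk => h.acc (hk.trans hn)) ht
  have hRN := RN_nonneg (A := A) (f := f) (n := n) hp
  have hVN := VN_nonneg (A := A) (f := f) (n := n) ht
  have hvs := vol_split (t := t) (A := A) (f := f) (n := n)
  have hvof := vol_f (t := t) (A := A) (f := f) (n := n)
  have hvle := vol_le (t := t) (f := f) (n := n + 1)
  have hcs := c_sub
  have hce := c_mul_e
  have hepos := e_pos
  have hcg := c_gt
  have hgl := ga_lt
  have hel := e_lt
  have hLR : (RO A f n).filter (· < j) ⊆ RO A f n := filter_subset _ _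
  have hX : X t p (RO A f n) ≤ X t p ((RO A f n).filter (· < j)) := by
    refine X_le_filter _ fun k hk hkj => hall k hk ?_
    rw [not_lt] at hkj
    refine lt_of_le_of_ne hkj ?_
    rintro rfl
    exact hAj (mem_RO.1 hk).2.1
  have hWn := W_holds h hn.le hI
  have hLRej : (RO A f n).filter (· < j) ⊆ Rej A n := hLR.trans RO_subset
  have hLRej' : (RO A f n).filter (· < j) ⊆ Rej A (j + 1) := by
    intro k hk
    rw [mem_filter] at hk
    exact mem_Rej.2 ⟨by omega, (mem_RO.1 hk.1).2.1⟩
  -- the estimate hC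
  have hsumt : 0 ≤ ∑ k ∈ RO A f n, t k := sum_nonneg fun k _ => (ht k).le
  have hC : e * (vol t A n - VN t A f n + t n) + X t p ((RO A f n).filter (· < j)) ≤
      3 * e * mk t f (n + 1) := by
    by_cases hex : ((RO A f n).filter (· < j)).filter (fun k => ga * t k < p k) = ∅
    · have h0 : X t p ((RO A f n).filter (· < j)) ≤ 0 := by
        refine X_le_zero fun k hk => ?_
        by_contra hc
        have : k ∈ ((RO A f n).filter (· < j)).filter (fun k => ga * t k < p k) :=
          mem_filter.2 ⟨hk, not_le.1 hc⟩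
        rw [hex] at this
        exact notMem_empty k this
      have h1 : e * (vol t A n - VN t A f n + t n) ≤ e * (3 * mk t f (n + 1)) :=
        mul_le_mul_of_nonneg_left (by linarith) hepos.le
      linarith
    · obtain ⟨s, hs, hmax⟩ := exists_max_image _ t (nonempty_iff_ne_empty.2 hex)
      rw [mem_filter] at hs
      have h0 := hWn _ hLRej (t s) (ht s).le
        (fun k hk hk' => hmax k (mem_filter.2 ⟨hk, hk'⟩))
      have h1 := VO_add_le (f := f) ht (hLR hs.1)
      have h2 : e * (vol t A n - VN t A f n + t n + t s) ≤ e * (3 * mk t f (n + 1)) :=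
        mul_le_mul_of_nonneg_left (by linarith) hepos.le
      linarith
  -- the estimate hA
  have hA : (1 - ga) * (mk t f (n + 1) - t n) +
      (e * mk t f (n + 1) - X t p ((RO A f n).filter (· < j))) + ga * vol t A n +
        e * VN t A f n < d n := by
    unfold g at hcon
    rw [hvf, hpf, hcs] at hcon
    have h1 : 0 ≤ (c - 1) * ∑ k ∈ RN A f n, p k := mul_nonneg (by linarith) hRN
    linarith
  -- the estimate hB
  have hB : d n < (1 - ga - e / 3) * vol t A n - c * X t p ((RO A f n).filter (· < j)) := by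
    obtain ⟨u, hu⟩ := exists_G t p (j + 1)
    have hjN : j + 1 ≤ N := by omega
    have hlu := lower (f := u) (n := j + 1) (fun k hk => h.acc (by omega)) ht
    have hIj := hI.mono (show j + 1 ≤ n by omega)
    have hWj := W_holds h hjN hIj
    have hpj : pen p A (j + 1) = pen p A j := pen_succ_some hAj
    have hmku := mk_nonneg (f := u) (n := j + 1) ht
    have h1 : X t p (RO A u (j + 1)) ≤ e * mk t u (j + 1) :=
      hWj _ RO_subset _ hmku fun k hk _ => by
        rw [mem_RO] at hk
        exact le_mk ht hk.1 hk.2.2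
    have h2 : X t p ((RO A f n).filter (· < j) ∩ RO A u (j + 1)) ≤ e * mk t u (j + 1) :=
      hWj _ (inter_subset_right.trans RO_subset) _ hmku fun k hk _ => by
        have hk := mem_RO.1 (mem_inter.1 hk).2
        exact le_mk ht hk.1 hk.2.2
    have h3 := X_split (t := t) (p := p) (f := u) hLRej'
    have hpal := hIj.pal h hjN
    have h4 : c * X t p ((RO A f n).filter (· < j) ∩ RN A u (j + 1)) ≤
        (c - 1) * ∑ k ∈ (RO A f n).filter (· < j) ∩ RN A u (j + 1), p k :=
      X_le_pen fun k hk => hpal k (RN_subset (mem_inter.1 hk).2)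
    have h5 : ∑ k ∈ (RO A f n).filter (· < j) ∩ RN A u (j + 1), p k ≤
        ∑ k ∈ RN A u (j + 1), p k :=
      sum_le_sum_of_subset_of_nonneg inter_subset_right fun k _ _ => (hp k).le
    have h6 : (c - 1) * ∑ k ∈ (RO A f n).filter (· < j) ∩ RN A u (j + 1), p k ≤
        (c - 1) * ∑ k ∈ RN A u (j + 1), p k := mul_le_mul_of_nonneg_left h5 (by linarith)
    have h7 : c * X t p ((RO A f n).filter (· < j) ∩ RO A u (j + 1)) ≤
        c * (e * mk t u (j + 1)) := mul_le_mul_of_nonneg_left h2 c_pos.le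
    have h7' : c * (e * mk t u (j + 1)) = (1 - al) * mk t u (j + 1) := by
      rw [← mul_assoc, hce]
    have h8 : c * X t p ((RO A f n).filter (· < j)) =
        c * X t p ((RO A f n).filter (· < j) ∩ RO A u (j + 1)) +
          c * X t p ((RO A f n).filter (· < j) ∩ RN A u (j + 1)) := by
      rw [h3]
      ring
    rw [← hu] at hb
    unfold g at hb
    rw [hcs] at hb
    have hae : al - ga = e := rfl
    have h9 : e * mk t u (j + 1) + ga * vol t A (j + 1) + e * VN t A u (j + 1) +
        c * X t p ((RO A f n).filter (· < j)) < b j + t j := by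
      have : (al - ga) * mk t u (j + 1) = e * mk t u (j + 1) := by rw [hae]
      linarith
    have hvsu := vol_split (t := t) (A := A) (f := u) (n := j + 1)
    have hvofu := vol_f (t := t) (A := A) (f := u) (n := j + 1)
    have hvleu := vol_le (t := t) (f := u) (n := j + 1)
    have hVNu := VN_nonneg (A := A) (f := u) (n := j + 1) ht
    have hsumu : 0 ≤ ∑ k ∈ RO A u (j + 1), t k := sum_nonneg fun k _ => (ht k).le
    have h10 : e * (vol t A (j + 1) / 3) ≤ e * (mk t u (j + 1) + VN t A u (j + 1)) :=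
      mul_le_mul_of_nonneg_left (by linarith) hepos.le
    have h11 : (1 - ga - e / 3) * vol t A (j + 1) ≤ (1 - ga - e / 3) * vol t A n :=
      mul_le_mul_of_nonneg_left (vol_mono ht (by omega)) (by linarith)
    have hdj := (h.ord j (by omega)).1
    linarith
  exact numI hA hB hC hTM hVN (h.three_d hn.le) (h.ord n hn.le).1

end

end Pool.Agent.R3
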