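import Pool.Agent.R3.WClaim

/-!
# Module R3/CaseII

The second invariant if the last expensive rejected job of `f` came after the last use of the
lowest machine.

PROOF. `inv2_of`: `g t p f (n+1) = (c - 3 ga) * mk t f (n+1) + ga * (vol t f n + t n) + c * pen p f n`
(`vol_succ_some`, `pen_succ_some`) and `lower` at `n`.
`inv2_small`: `X (RO) ≤ e * M` with `M = mk t f (n+1)` by `W_holds` (`t k ≤ M` by `le_mk`), `t n ≤ M`,
`c - 3 ga = (1 - ga) + e`, everything else is `≥ 0`, then `inv2_of`.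
`caseII`: write `M = mk t f (n+1)`, `V = vol t A n ≥ vol t A i =: V'` (`vol_mono`),
`3 * d n = 3 * d i ≤ V'` (`three_d`), `t i ≤ M`, `t n ≤ M`. `W_last` for `S = RO A f n`, multiplied by
`al`: `X (RO) ≤ e * t i + al * d n - al * (ga + e / 2) * V'` (`al * c = 1`, `al * (1 - al) = e`).
So for `inv2_of` it suffices that `(1 + al) * d n ≤ (ga + al * (ga + e / 2)) * V'`; as
`V' ≥ 3 * d n ≥ 0` this follows from `1 + al ≤ 3 * (ga + al * (ga + e / 2))`
(numbers: `1.5437 < 1.5712`).
-/

set_option autoImplicit false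

namespace Pool.Agent.R3

open Finset

section

variable {t p : ℕ → ℝ} {A f : ℕ → Option (Fin 3)} {a b d : ℕ → ℝ} {N n : ℕ}

theorem inv2_of (h : Run t p A a b d N) (hn : n < N) (hf : f n ≠ none)
    (hh : d n + (1 - ga) * t n ≤ (c - 3 * ga) * mk t f (n + 1) + ga * vol t A n -
      X t p (RO A f n) + (c - 1) * (∑ k ∈ RN A f n, p k) + e * VN t A f n) :
    d n + t n + pen p A n ≤ g t p f (n + 1) := by
  have h1 := lower (t := t) (p := p) (A := A) (f := f) (n := n)
    (fun k hk hA => h.acc (hk.trans hn) hA) h.tpos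
  have h2 : g t p f (n + 1) = (c - 3 * ga) * mk t f (n + 1) + ga * (vol t f n + t n) +
      c * pen p f n := by
    unfold g
    rw [vol_succ_some hf, pen_succ_some hf]
  rw [h2, mul_add]
  linarith

theorem inv2_small (h : Run t p A a b d N) (hn : n < N) (hI : HInv t p A a d n)
    (hf : f n ≠ none) (hd : d n ≤ ga * vol t A n) :
    d n + t n + pen p A n ≤ g t p f (n + 1) := by
  refine inv2_of h hn hf ?_
  have hM : t n ≤ mk t f (n + 1) := le_mk h.tpos (Nat.lt_succ_self n) hf
  have hM0 : 0 ≤ mk t f (n + 1) := mk_nonneg h.tpos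
  have hX : X t p (RO A f n) ≤ e * mk t f (n + 1) := by
    refine W_holds h hn.le hI _ RO_subset _ hM0 ?_
    intro k hk _
    obtain ⟨hk1, _, hk3⟩ := mem_RO.1 hk
    exact le_mk h.tpos (by omega) hk3
  have hVN : 0 ≤ VN t A f n := VN_nonneg h.tpos
  have hR : 0 ≤ ∑ k ∈ RN A f n, p k := RN_nonneg h.ppos
  have h1 : 0 ≤ e * VN t A f n := mul_nonneg e_pos.le hVN
  have h2 : 0 ≤ (c - 1) * ∑ k ∈ RN A f n, p k := by
    have := c_gt
    exact mul_nonneg (by linarith) hR
  have h3 : (1 - ga) * t n ≤ (1 - ga) * mk t f (n + 1) := by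
    have := ga_lt
    exact mul_le_mul_of_nonneg_left hM (by linarith)
  have h4 : (c - 3 * ga) * mk t f (n + 1) =
      (1 - ga) * mk t f (n + 1) + e * mk t f (n + 1) := by
    rw [c_sub, add_mul]
  rw [h4]
  linarith

theorem caseII (h : Run t p A a b d N) (hn : n < N) (hI : HInv t p A a d n)
    (hf : f n ≠ none) {i : ℕ} (hi : i ∈ RO A f n) (hfi : ga * t i < p i)
    (hlast : ∀ k ∈ RO A f n, i < k → p k ≤ ga * t k) (hd : d i = d n) :
    d n + t n + pen p A n ≤ g t p f (n + 1) := by
  refine inv2_of h hn hf ?_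
  obtain ⟨hin, _, hfi2⟩ := mem_RO.1 hi
  have hM : t n ≤ mk t f (n + 1) := le_mk h.tpos (Nat.lt_succ_self n) hf
  have hMi : t i ≤ mk t f (n + 1) := le_mk h.tpos (by omega) hfi2
  have hVN : 0 ≤ VN t A f n := VN_nonneg h.tpos
  have hR : 0 ≤ ∑ k ∈ RN A f n, p k := RN_nonneg h.ppos
  have h1 : 0 ≤ e * VN t A f n := mul_nonneg e_pos.le hVN
  have h2 : 0 ≤ (c - 1) * ∑ k ∈ RN A f n, p k := by
    have := c_gt
    exact mul_nonneg (by linarith) hR
  have h3 : (1 - ga) * t n ≤ (1 - ga) * mk t f (n + 1) := by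
    have := ga_lt
    exact mul_le_mul_of_nonneg_left hM (by linarith)
  have h4 : (c - 3 * ga) * mk t f (n + 1) =
      (1 - ga) * mk t f (n + 1) + e * mk t f (n + 1) := by
    rw [c_sub, add_mul]
  have h5 : e * t i ≤ e * mk t f (n + 1) := mul_le_mul_of_nonneg_left hMi e_pos.le
  have hV : vol t A i ≤ vol t A n := vol_mono h.tpos hin.le
  have h6 : ga * vol t A i ≤ ga * vol t A n := mul_le_mul_of_nonneg_left hV ga_pos.le
  have h3d : 3 * d n ≤ vol t A i := by
    rw [← hd]
    exact h.three_d (hin.le.trans hn.le)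
  have hd0 : 0 ≤ d n := (h.ord n hn.le).1
  have hW := W_last h hn.le hI RO_subset hi hfi hlast
  rw [hd] at hW
  have hW2 := mul_le_mul_of_nonneg_left hW al_pos.le
  have e1 : al * (c * X t p (RO A f n)) = X t p (RO A f n) := by
    rw [← mul_assoc, mul_comm al c, c_mul_al, one_mul]
  have e2 : al * (1 - al) = e := by
    rw [mul_sub, al_mul_al, mul_one]
    rfl
  have e3 : al * ((1 - al) * t i + d n - (ga + e / 2) * vol t A i) =
      e * t i + al * d n - (al * (ga + e / 2)) * vol t A i := by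
    rw [← e2]
    ring
  rw [e1, e3] at hW2
  have hK : 1 + al ≤ 3 * (ga + al * (ga + e / 2)) := by
    have e4 : al * (ga + e / 2) = (1 - al - ga) + (ga - (1 - al - ga)) / 2 := by
      have e5 : e = al - ga := rfl
      rw [e5, show al * (ga + (al - ga) / 2) = al * ga + (al * al - al * ga) / 2 by ring,
        al_mul_ga, al_mul_al]
    rw [e4]
    have := al_gt
    have := al_lt
    have := ga_gt
    linarith
  have h7 : (1 + al) * d n ≤ (ga + al * (ga + e / 2)) * vol t A i := by
    have hK0 : 0 ≤ ga + al * (ga + e / 2) := by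
      have := al_pos
      linarith
    calc (1 + al) * d n ≤ (3 * (ga + al * (ga + e / 2))) * d n :=
          mul_le_mul_of_nonneg_right hK hd0
      _ = (ga + al * (ga + e / 2)) * (3 * d n) := by ring
      _ ≤ (ga + al * (ga + e / 2)) * vol t A i := mul_le_mul_of_nonneg_left h3d hK0
  rw [h4]
  have h8 : (1 + al) * d n = d n + al * d n := by ring
  have h9 : (ga + al * (ga + e / 2)) * vol t A i =
      ga * vol t A i + (al * (ga + e / 2)) * vol t A i := by ring
  rw [h8, h9] at h7
  linarith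

end

end Pool.Agent.R3
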