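import Mathlib

/-!
# Module R3/Const: the constants

`al` is the positive root of `al + al^2 + al^3 = 1` (`0.54368901..`), `ga = al^2` (`0.29559774..`),
`e = al - ga` (`0.24809127..`), `c = 1 / al = 1 + al + ga` (`1.83928675..`, the tribonacci constant).
-/

set_option autoImplicit false

namespace Pool.Agent.R3

theorem exists_al : ∃ x : ℝ, 0.54368901 < x ∧ x < 0.54368902 ∧ x + x ^ 2 + x ^ 3 = 1 := by
  have h : Continuous fun x : ℝ => x + x ^ 2 + x ^ 3 := by fun_prop
  obtain ⟨x, hx, hx'⟩ := intermediate_value_Ioo (a := (0.54368901 : ℝ)) (b := 0.54368902)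
    (by norm_num) h.continuousOn (show (1 : ℝ) ∈ _ by constructor <;> norm_num)
  exact ⟨x, hx.1, hx.2, hx'⟩

/-- The inverse of the tribonacci constant. -/
noncomputable def al : ℝ := exists_al.choose

/-- The square of `al`. -/
noncomputable def ga : ℝ := al ^ 2

/-- The difference `al - ga`. -/
noncomputable def e : ℝ := al - ga

/-- The tribonacci constant. -/
noncomputable def c : ℝ := 1 + al + ga

theorem al_gt : 0.54368901 < al := exists_al.choose_spec.1

theorem al_lt : al < 0.54368902 := exists_al.choose_spec.2.1

theorem al_eq : al + al ^ 2 + al ^ 3 = 1 := exists_al.choose_spec.2.2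

theorem al_pos : 0 < al := lt_trans (by norm_num) al_gt

theorem al_mul_al : al * al = ga := by unfold ga; ring

theorem al_mul_ga : al * ga = 1 - al - ga := by
  have := al_eq
  unfold ga
  linarith [show al * al ^ 2 = al ^ 3 by ring]

theorem ga_gt : 0.29559 < ga := by
  have := al_gt
  unfold ga
  nlinarith

theorem ga_lt : ga < 0.29561 := by
  have := al_lt
  have := al_pos
  unfold ga
  nlinarith

theorem ga_pos : 0 < ga := lt_trans (by norm_num) ga_gt

theorem e_gt : 0.24807 < e := by
  have := al_gt
  have := ga_lt
  unfold e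
  linarith

theorem e_lt : e < 0.24810 := by
  have := al_lt
  have := ga_gt
  unfold e
  linarith

theorem e_pos : 0 < e := lt_trans (by norm_num) e_gt

theorem al_sub_e : al - e = ga := by unfold e; ring

theorem c_gt : 1.83927 < c := by
  have := al_gt
  have := ga_gt
  unfold c
  linarith

theorem c_lt : c < 1.83930 := by
  have := al_lt
  have := ga_lt
  unfold c
  linarith

theorem c_pos : 0 < c := lt_trans (by norm_num) c_gt

theorem c_mul_al : c * al = 1 := by
  have h1 := al_mul_al
  have h2 := al_mul_ga
  unfold c
  linarith [show (1 + al + ga) * al = al + al * al + al * ga by ring]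

theorem c_mul_ga : c * ga = al := by
  rw [← al_mul_al, ← mul_assoc, c_mul_al, one_mul]

theorem c_mul_e : c * e = 1 - al := by
  have h1 := c_mul_al
  have h2 := c_mul_ga
  unfold e
  linarith [show c * (al - ga) = c * al - c * ga by ring]

theorem e_mul_c_add : e * (1 + c) = 1 - ga := by
  have h1 := c_mul_e
  have h2 : e = al - ga := rfl
  linarith [show e * (1 + c) = e + c * e by ring]

theorem c_sub : c - 3 * ga = (1 - ga) + e := by unfold c e; ring

theorem c_mul_one_sub_al : c * (1 - al) = c - 1 := by
  have h1 := c_mul_al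
  linarith [show c * (1 - al) = c - c * al by ring]

/-- The tribonacci equation. -/
theorem c_cube : c ^ 3 = c ^ 2 + c + 1 := by
  have h1 : c = 1 + al + ga := rfl
  have h2 := c_mul_al
  have h3 := c_mul_ga
  have e1 : c ^ 2 = c + 1 + al := by
    calc c ^ 2 = c * (1 + al + ga) := by rw [← h1]; ring
      _ = c + c * al + c * ga := by ring
      _ = c + 1 + al := by rw [h2, h3]
  calc c ^ 3 = c * c ^ 2 := by ring
    _ = c * (c + 1 + al) := by rw [e1]
    _ = c ^ 2 + c + c * al := by ring
    _ = c ^ 2 + c + 1 := by rw [h2]

end Pool.Agent.R3
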