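import Pool.Agent.R3.GBasic

/-!
# Module R3/Decomp

Comparison of the run `A` with an assignment `f`.

PROOF. Compare termwise under `Finset.sum_filter`, `Finset.sum_add_distrib`, by cases on
`A k = none`, `f k = none`. `vol_split`: `VO + VN = vol A`. `vol_f`: `VO + ∑_{RO} t = vol f`.
`lower`: `pen p f n = QA + QR` with `QR = ∑_{RN} p`, `QA = ∑ (A k ≠ none ∧ f k = none) p k` and
`pen p A n = QR + ∑_{RO} p`; an accepted job satisfies `ga * t k < p k` (hypothesis `hA`), so
`QA ≥ ga * VN` and `c * QA ≥ al * VN` (`c_mul_ga`); `ga * VO = ga * (vol A - VN)`,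
`al - ga = e`. Equivalently prove the inequality termwise: for every `k < n` the term of the right
hand side minus the term of the left hand side is: `0` if `A k ≠ none, f k ≠ none`;
`c * p k - ga * t k - e * t k ≥ (c * ga - ga - e) * t k = 0` if `A k ≠ none, f k = none`;
`0` if `A k = none`.
-/

set_option autoImplicit false

namespace Pool.Agent.R3

open Finset

section

variable {t p : ℕ → ℝ} {A f : ℕ → Option (Fin 3)} {n : ℕ}

theorem VO_nonneg (ht : ∀ n, 0 < t n) : 0 ≤ VO t A f n := by
  unfold VO
  refine Finset.sum_nonneg fun k _ => ?_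
  split_ifs
  · exact (ht k).le
  · exact le_rfl

theorem VN_nonneg (ht : ∀ n, 0 < t n) : 0 ≤ VN t A f n := by
  unfold VN
  refine Finset.sum_nonneg fun k _ => ?_
  split_ifs
  · exact (ht k).le
  · exact le_rfl

theorem vol_split : VO t A f n + VN t A f n = vol t A n := by
  unfold VO VN vol
  rw [← Finset.sum_add_distrib]
  refine Finset.sum_congr rfl fun k _ => ?_
  by_cases h1 : A k = none <;> by_cases h2 : f k = none <;> simp [h1, h2]

theorem vol_f : VO t A f n + ∑ k ∈ RO A f n, t k = vol t f n := by
  unfold VO RO vol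
  rw [Finset.sum_filter, ← Finset.sum_add_distrib]
  refine Finset.sum_congr rfl fun k _ => ?_
  by_cases h1 : A k = none <;> by_cases h2 : f k = none <;> simp [h1, h2]

/-- A job rejected by `A` and accepted by `f` has room in `f` besides the jobs accepted by both. -/
theorem VO_add_le (ht : ∀ n, 0 < t n) {k : ℕ} (hk : k ∈ RO A f n) :
    VO t A f n + t k ≤ vol t f n := by
  have h1 := Finset.single_le_sum (f := t) (fun i _ => (ht i).le) hk
  have h2 := vol_f (t := t) (A := A) (f := f) (n := n)
  linarith

theorem RN_nonneg (hp : ∀ n, 0 < p n) : 0 ≤ ∑ k ∈ RN A f n, p k :=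
  Finset.sum_nonneg fun k _ => (hp k).le

theorem RO_subset : RO A f n ⊆ Rej A n := by
  intro k hk
  simp only [RO, Rej, mem_filter] at hk ⊢
  exact ⟨hk.1, hk.2.1⟩

theorem RN_subset : RN A f n ⊆ Rej A n := by
  intro k hk
  simp only [RN, Rej, mem_filter] at hk ⊢
  exact ⟨hk.1, hk.2.1⟩

theorem mem_Rej {k : ℕ} : k ∈ Rej A n ↔ k < n ∧ A k = none := by
  simp [Rej]

theorem mem_RO {k : ℕ} : k ∈ RO A f n ↔ k < n ∧ A k = none ∧ f k ≠ none := by
  simp [RO]

theorem mem_RN {k : ℕ} : k ∈ RN A f n ↔ k < n ∧ A k = none ∧ f k = none := by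
  simp [RN]

/-- Every set of rejected jobs splits. -/
theorem X_split {S : Finset ℕ} (hS : S ⊆ Rej A n) :
    X t p S = X t p (S ∩ RO A f n) + X t p (S ∩ RN A f n) := by
  unfold X
  rw [← Finset.sum_union]
  · refine Finset.sum_congr ?_ fun _ _ => rfl
    ext k
    rw [mem_union, mem_inter, mem_inter, mem_RO, mem_RN]
    constructor
    · intro hk
      have h1 := mem_Rej.1 (hS hk)
      by_cases h2 : f k = none
      · exact Or.inr ⟨hk, h1.1, h1.2, h2⟩
      · exact Or.inl ⟨hk, h1.1, h1.2, h2⟩
    · rintro (h | h) <;> exact h.1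
  · rw [Finset.disjoint_left]
    intro k h1 h2
    rw [mem_inter, mem_RO] at h1
    rw [mem_inter, mem_RN] at h2
    exact h1.2.2.2 h2.2.2.2

/-- The fundamental comparison. -/
theorem lower (hA : ∀ k < n, A k ≠ none → ga * t k < p k) (ht : ∀ n, 0 < t n) :
    pen p A n + ga * vol t A n - X t p (RO A f n) + (c - 1) * (∑ k ∈ RN A f n, p k) +
      e * VN t A f n ≤ ga * vol t f n + c * pen p f n := by
  have hL : pen p A n + ga * vol t A n - X t p (RO A f n) + (c - 1) * (∑ k ∈ RN A f n, p k) +
      e * VN t A f n = ∑ k ∈ range n,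
        ((if A k = none then p k else 0) + ga * (if A k = none then 0 else t k) -
          (if A k = none ∧ f k ≠ none then p k - ga * t k else 0) +
          (c - 1) * (if A k = none ∧ f k = none then p k else 0) +
          e * (if A k ≠ none ∧ f k = none then t k else 0)) := by
    unfold pen vol X RO RN VN
    rw [Finset.sum_filter, Finset.sum_filter, Finset.mul_sum, Finset.mul_sum, Finset.mul_sum,
      ← Finset.sum_add_distrib, ← Finset.sum_sub_distrib, ← Finset.sum_add_distrib,
      ← Finset.sum_add_distrib]
  have hR : ga * vol t f n + c * pen p f n = ∑ k ∈ range n,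
      (ga * (if f k = none then 0 else t k) + c * (if f k = none then p k else 0)) := by
    unfold vol pen
    rw [Finset.mul_sum, Finset.mul_sum, ← Finset.sum_add_distrib]
  rw [hL, hR]
  refine Finset.sum_le_sum fun k hk => ?_
  have hkn := Finset.mem_range.1 hk
  by_cases h1 : A k = none <;> by_cases h2 : f k = none
  · simp only [h1, h2, if_true, ne_eq, not_true_eq_false, and_false, false_and, and_self, if_false]
    linarith
  · simp only [h1, h2, if_true, ne_eq, not_true_eq_false, not_false_eq_true, and_false, false_and,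
      and_self, if_false, true_and]
    linarith
  · simp only [h1, h2, if_true, ne_eq, not_true_eq_false, not_false_eq_true, and_false, false_and,
      and_self, if_false, true_and]
    have h3 := hA k hkn h1
    have h4 := mul_lt_mul_of_pos_left h3 c_pos
    have h5 : c * (ga * t k) = al * t k := by rw [← mul_assoc, c_mul_ga]
    have h6 : al * t k = ga * t k + e * t k := by
      rw [← al_sub_e]
      ring
    linarith
  · simp only [h1, h2, if_true, ne_eq, not_true_eq_false, not_false_eq_true, and_false, false_and,
      and_self, if_false, true_and]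
    linarith

end

end Pool.Agent.R3
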