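import Pool.Agent.R3.Const

/-!
# Module R3/Defs

Three machines. The jobs are given by sequences `t` (running times) and `p` (penalties); an
assignment is a function `f : ℕ → Option (Fin 3)` (`none`: reject); all quantities refer to the
first `n` jobs. `A` is always the assignment made by the algorithm.
-/

set_option autoImplicit false

namespace Pool.Agent.R3

open Finset

/-- The load of machine `i` after `n` jobs. -/
noncomputable def ld (t : ℕ → ℝ) (f : ℕ → Option (Fin 3)) (n : ℕ) (i : Fin 3) : ℝ :=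
  ∑ k ∈ range n, if f k = some i then t k else 0

/-- The makespan after `n` jobs. -/
noncomputable def mk (t : ℕ → ℝ) (f : ℕ → Option (Fin 3)) (n : ℕ) : ℝ :=
  max (ld t f n 0) (max (ld t f n 1) (ld t f n 2))

/-- The total running time of the accepted jobs. -/
noncomputable def vol (t : ℕ → ℝ) (f : ℕ → Option (Fin 3)) (n : ℕ) : ℝ :=
  ∑ k ∈ range n, if f k = none then 0 else t k

/-- The total penalty of the rejected jobs. -/
noncomputable def pen (p : ℕ → ℝ) (f : ℕ → Option (Fin 3)) (n : ℕ) : ℝ :=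
  ∑ k ∈ range n, if f k = none then p k else 0

/-- The modified cost of an assignment (at most `c` times the cost). -/
noncomputable def g (t p : ℕ → ℝ) (f : ℕ → Option (Fin 3)) (n : ℕ) : ℝ :=
  (c - 3 * ga) * mk t f n + ga * vol t f n + c * pen p f n

/-- The least modified cost. -/
noncomputable def G (t p : ℕ → ℝ) (n : ℕ) : ℝ := ⨅ f : ℕ → Option (Fin 3), g t p f n

/-- The run of the algorithm on the first `N` jobs: assignment `A`, sorted loads
`a n ≥ b n ≥ d n`. Rule for job `n`: if `p ≤ ga * t` or `d + t + P > G'` reject; else put it on the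
second lowest machine if `b + t + P ≤ G'`, else on the lowest machine. -/
structure Run (t p : ℕ → ℝ) (A : ℕ → Option (Fin 3)) (a b d : ℕ → ℝ) (N : ℕ) : Prop where
  tpos : ∀ n, 0 < t n
  ppos : ∀ n, 0 < p n
  azero : a 0 = 0
  dzero : d 0 = 0
  ord : ∀ n ≤ N, 0 ≤ d n ∧ d n ≤ b n ∧ b n ≤ a n
  sum : ∀ n ≤ N, vol t A n = a n + b n + d n
  mks : ∀ n ≤ N, mk t A n = a n
  step : ∀ n < N,
    (A n = none ∧ a (n + 1) = a n ∧ d (n + 1) = d n ∧
      (p n ≤ ga * t n ∨ (ga * t n < p n ∧ G t p (n + 1) < d n + t n + pen p A n))) ∨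
    (A n ≠ none ∧ ga * t n < p n ∧ b n + t n + pen p A n ≤ G t p (n + 1) ∧
      a (n + 1) = max (a n) (b n + t n) ∧ d (n + 1) = d n) ∨
    (A n ≠ none ∧ ga * t n < p n ∧ d n + t n + pen p A n ≤ G t p (n + 1) ∧
      G t p (n + 1) < b n + t n + pen p A n ∧
      a (n + 1) = max (a n) (d n + t n) ∧ d (n + 1) = min (b n) (d n + t n))

/-- The total running time of the jobs accepted by both `A` and `f`. -/
noncomputable def VO (t : ℕ → ℝ) (A f : ℕ → Option (Fin 3)) (n : ℕ) : ℝ :=
  ∑ k ∈ range n, if A k ≠ none ∧ f k ≠ none then t k else 0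

/-- The total running time of the jobs accepted by `A` and rejected by `f`. -/
noncomputable def VN (t : ℕ → ℝ) (A f : ℕ → Option (Fin 3)) (n : ℕ) : ℝ :=
  ∑ k ∈ range n, if A k ≠ none ∧ f k = none then t k else 0

/-- The jobs rejected by `A`. -/
def Rej (A : ℕ → Option (Fin 3)) (n : ℕ) : Finset ℕ := (range n).filter fun k => A k = none

/-- The jobs rejected by `A` and accepted by `f`. -/
def RO (A f : ℕ → Option (Fin 3)) (n : ℕ) : Finset ℕ :=
  (range n).filter fun k => A k = none ∧ f k ≠ none

/-- The jobs rejected by `A` and by `f`. -/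
def RN (A f : ℕ → Option (Fin 3)) (n : ℕ) : Finset ℕ :=
  (range n).filter fun k => A k = none ∧ f k = none

/-- The excess of a set of jobs. -/
noncomputable def X (t p : ℕ → ℝ) (S : Finset ℕ) : ℝ := ∑ k ∈ S, (p k - ga * t k)

/-- The induction hypothesis at time `n`. -/
structure HInv (t p : ℕ → ℝ) (A : ℕ → Option (Fin 3)) (a d : ℕ → ℝ) (n : ℕ) : Prop where
  inv : ∀ k ≤ n, a k + pen p A k ≤ G t p k
  forced : ∀ k < n, A k = none → ga * t k < p k → G t p k + c * p k < d k + t k + pen p A k

end Pool.Agent.R3
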