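import Pool.Agent.R3.Const
import Pool.Agent.H69.Sched.LogAlg

/-!
# Module R3/Lower

The adversary: `(1, al)`, `(1, ga)`, `(1, 2)`.

PROOF. Let `A` be `c'`-competitive (`0 ≤ c'` by `comp_nonneg`). `I1 = [(1, al)]`,
`I2 = [(1, al), (1, ga)]`, `I3 = [(1, al), (1, ga), (1, 2)]`; `run A I1 = [x]`, `run A I2 = [x, y]`,
`run A I3 = [x, y, z]` with `x = A I1`, `y = A I2`, `z = A I3` (`run`, `simp`).
If `x = some i`: `cost I1 [x] ≥ 1` (`load ≥ 1` on machine `i`, `le_ciSup (bddAbove_load _ _) i`) and
`opt 3 I1 ≤ al` (`opt_le_reject`): `1 ≤ c' * al`, multiply by `c` (`c_mul_al`): `c ≤ c'`.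
If `x = none`, `y = some i`: `cost I2 ≥ 1 + al`, `opt 3 I2 ≤ al + ga` (`opt_le_reject`):
`1 + al ≤ c' * (al + ga)`, and `c * (al + ga) = 1 + al` (`c_mul_al`, `c_mul_ga`), so `c ≤ c'`.
If `x = y = none`: `opt 3 I3 ≤ 1` (`opt_le` with `[some 0, some 1, some 2]`, all loads are `≤ 1`,
penalty `0`); if `z = some i` the cost is `≥ 1 + al + ga = c`, if `z = none` it is
`≥ al + ga + 2 ≥ c`. So `c ≤ c'`.
Finally `le_csInf` for `R 3`; the set is nonempty: it contains `c'` for some competitive algorithm,
e.g. `R_le_of`-like results give an element; the easiest: `nonempty` is a hypothesis here.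
-/

set_option autoImplicit false

namespace Pool.Agent.R3

open Pool.Agent.H78.Sched Pool.Agent.H69.Sched

private theorem cost_ge (I : List (ℝ × ℝ)) (σ : List (Option (Fin 3))) (i : Fin 3) :
    load I σ i + penalty I σ ≤ cost I σ := by
  unfold cost
  have := le_ciSup (bddAbove_load I σ) i
  linarith

theorem c_le_of_competitive {A : List (ℝ × ℝ) → Option (Fin 3)} {c' : ℝ}
    (hA : Competitive 3 A c') : c ≤ c' := by
  have hc' := comp_nonneg hA
  have ha := al_pos
  have hg := ga_pos
  have hc := c_pos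
  have e1 := c_mul_al
  have e2 := c_mul_ga
  have hcd : c = 1 + al + ga := rfl
  have pos1 : ∀ j ∈ [((1 : ℝ), al)], 0 < j.1 ∧ 0 < j.2 := by
    intro j hj
    simp only [List.mem_cons, List.not_mem_nil, or_false] at hj
    subst hj
    exact ⟨one_pos, ha⟩
  have pos2 : ∀ j ∈ [((1 : ℝ), al), (1, ga)], 0 < j.1 ∧ 0 < j.2 := by
    intro j hj
    simp only [List.mem_cons, List.not_mem_nil, or_false] at hj
    rcases hj with rfl | rfl
    · exact ⟨one_pos, ha⟩
    · exact ⟨one_pos, hg⟩
  have pos3 : ∀ j ∈ [((1 : ℝ), al), (1, ga), (1, 2)], 0 < j.1 ∧ 0 < j.2 := by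
    intro j hj
    simp only [List.mem_cons, List.not_mem_nil, or_false] at hj
    rcases hj with rfl | rfl | rfl
    · exact ⟨one_pos, ha⟩
    · exact ⟨one_pos, hg⟩
    · exact ⟨one_pos, two_pos⟩
  have r1 : run A [((1 : ℝ), al)] = [A [(1, al)]] := by
    simp [run, List.range_succ]
  have r2 : run A [((1 : ℝ), al), (1, ga)] = [A [(1, al)], A [(1, al), (1, ga)]] := by
    simp [run, List.range_succ]
  have r3 : run A [((1 : ℝ), al), (1, ga), (1, 2)] =
      [A [(1, al)], A [(1, al), (1, ga)], A [(1, al), (1, ga), (1, 2)]] := by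
    simp [run, List.range_succ]
  have c1 := hA _ pos1
  have c2 := hA _ pos2
  have c3 := hA _ pos3
  rw [r1] at c1
  rw [r2] at c2
  rw [r3] at c3
  have o1 : opt 3 [((1 : ℝ), al)] ≤ al := by
    have := opt_le_reject (m := 3) pos1
    simpa using this
  have o2 : opt 3 [((1 : ℝ), al), (1, ga)] ≤ al + ga := by
    have := opt_le_reject (m := 3) pos2
    simpa using this
  have o3 : opt 3 [((1 : ℝ), al), (1, ga), (1, 2)] ≤ 1 := by
    refine (opt_le (m := 3) pos3 (σ := [some 0, some 1, some 2]) rfl).trans ?_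
    unfold cost
    have h1 : penalty [((1 : ℝ), al), (1, ga), (1, 2)] [some (0 : Fin 3), some 1, some 2] = 0 := by
      simp [penalty]
    rw [h1, add_zero]
    refine ciSup_le fun i => ?_
    unfold load
    fin_cases i <;> simp
  generalize A [(1, al)] = x at c1 c2 c3
  generalize A [(1, al), (1, ga)] = y at c2 c3
  generalize A [(1, al), (1, ga), (1, 2)] = z at c3
  cases x with
  | some i =>
    have h1 := cost_ge [((1 : ℝ), al)] [some i] i
    have h2 : load [((1 : ℝ), al)] [some i] i = 1 := by simp [load]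
    have h3 : penalty [((1 : ℝ), al)] [some i] = 0 := by simp [penalty]
    have h4 : c' * opt 3 [((1 : ℝ), al)] ≤ c' * al := mul_le_mul_of_nonneg_left o1 hc'
    have h5 : c * 1 ≤ c * (c' * al) := mul_le_mul_of_nonneg_left (by linarith) hc.le
    have h6 : c * (c' * al) = c' * (c * al) := by ring
    rw [h6, e1] at h5
    linarith
  | none =>
    cases y with
    | some i =>
      have h1 := cost_ge [((1 : ℝ), al), (1, ga)] [none, some i] i
      have h2 : load [((1 : ℝ), al), (1, ga)] [none, some i] i = 1 := by simp [load]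
      have h3 : penalty [((1 : ℝ), al), (1, ga)] [none, some i] = al := by simp [penalty]
      have h4 : c' * opt 3 [((1 : ℝ), al), (1, ga)] ≤ c' * (al + ga) :=
        mul_le_mul_of_nonneg_left o2 hc'
      have h5 : c * (1 + al) ≤ c * (c' * (al + ga)) :=
        mul_le_mul_of_nonneg_left (by linarith) hc.le
      have h6 : c * (c' * (al + ga)) = c' * (c * al + c * ga) := by ring
      rw [h6, e1, e2] at h5
      exact le_of_mul_le_mul_right h5 (by linarith)
    | none =>
      have h4 : c' * opt 3 [((1 : ℝ), al), (1, ga), (1, 2)] ≤ c' * 1 :=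
        mul_le_mul_of_nonneg_left o3 hc'
      cases z with
      | some i =>
        have h1 := cost_ge [((1 : ℝ), al), (1, ga), (1, 2)] [none, none, some i] i
        have h2 : load [((1 : ℝ), al), (1, ga), (1, 2)] [none, none, some i] i = 1 := by
          simp [load]
        have h3 : penalty [((1 : ℝ), al), (1, ga), (1, 2)] [(none : Option (Fin 3)), none, some i]
            = al + ga := by simp [penalty]
        linarith
      | none =>
        have h1 := cost_ge [((1 : ℝ), al), (1, ga), (1, 2)] [none, none, none] 0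
        have h2 : load [((1 : ℝ), al), (1, ga), (1, 2)] [none, none, none] (0 : Fin 3) = 0 := by
          simp [load]
        have h3 : penalty [((1 : ℝ), al), (1, ga), (1, 2)] [(none : Option (Fin 3)), none, none]
            = al + (ga + 2) := by simp [penalty]
        linarith

theorem le_R_three (hne : ∃ (c' : ℝ) (A : List (ℝ × ℝ) → Option (Fin 3)), Competitive 3 A c') :
    c ≤ R 3 := by
  obtain ⟨c', A, hA⟩ := hne
  refine le_csInf ⟨c', A, hA⟩ ?_
  rintro x ⟨B, hB⟩
  exact c_le_of_competitive hB

end Pool.Agent.R3
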