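import Pool.Agent.R3.Upper
import Pool.Agent.R3.Lower

/-!
# Module R3/Final

The optimal competitive ratio on three machines is the tribonacci constant.
-/

set_option autoImplicit false

namespace Pool.Agent.R3

open Pool.Agent.H78.Sched

theorem R_three : R 3 = c := le_antisymm R_three_le (le_R_three ⟨c, onl, competitive⟩)

/-- The optimal competitive ratio on three machines is the only real root of
`x ^ 3 = x ^ 2 + x + 1`. -/
theorem final : R 3 ^ 3 = R 3 ^ 2 + R 3 + 1 ∧ ∀ x : ℝ, x ^ 3 = x ^ 2 + x + 1 → x = R 3 := by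
  rw [R_three]
  refine ⟨c_cube, fun x hx => ?_⟩
  have h1 := c_cube
  have h2 := c_gt
  have h3 : (x - c) * (x ^ 2 + x * c + c ^ 2 - (x + c) - 1) = 0 := by
    linear_combination hx - h1
  rcases mul_eq_zero.1 h3 with h | h
  · linarith
  · exfalso
    nlinarith [sq_nonneg (2 * x + c - 1)]

end Pool.Agent.R3
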