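import Pool.Agent.R3.GBasic

/-!
# Module R3/FromRule

From the rule with machines to sorted loads.

PROOF. For `x : Fin 3 → ℝ` put `lo x = min (x 0) (min (x 1) (x 2))`,
`hi x = max (x 0) (max (x 1) (x 2))`, `a n = hi (ld t A n)`, `d n = lo (ld t A n)`,
`b n = vol t A n - a n - d n` (`vol_eq`). `sorted_of`: if `i' ≠ i`, `x i` is minimal and `x i'` is
minimal among the others, then `lo x = x i`, and with `z = x 0 + x 1 + x 2 - x i - x i'` (the third
load) `x i' ≤ z`, `hi x = z`, hence `x 0 + x 1 + x 2 - hi x - lo x = x i'`: cases on `i`, `i'`.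
`ld t A (n+1) k = ld t A n k + if A n = some k then t n else 0`. If the job is put on `i'`: the new
loads are `x i, x i' + t, z`: `lo = x i`, `hi = max z (x i' + t)`. If it is put on `i`: the new loads
are `x i + t, x i', z`, `lo = min (x i') (x i + t)` (as `x i' ≤ z`), `hi = max z (x i + t)`. Again by
cases on `i`, `i'`.
-/

set_option autoImplicit false

namespace Pool.Agent.R3

open Finset

/-- The rule of the algorithm for job `n`; `i` is a machine of lowest load and `i'` a machine of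
lowest load among the other ones. -/
def Rule (t p : ℕ → ℝ) (A : ℕ → Option (Fin 3)) (n : ℕ) : Prop :=
  ∃ i i' : Fin 3, i' ≠ i ∧ (∀ k, ld t A n i ≤ ld t A n k) ∧
    (∀ k, k ≠ i → ld t A n i' ≤ ld t A n k) ∧
    ((A n = none ∧ p n ≤ ga * t n) ∨
     (A n = none ∧ ga * t n < p n ∧ G t p (n + 1) < ld t A n i + t n + pen p A n) ∨
     (A n = some i' ∧ ga * t n < p n ∧ ld t A n i' + t n + pen p A n ≤ G t p (n + 1)) ∨
     (A n = some i ∧ ga * t n < p n ∧ ld t A n i + t n + pen p A n ≤ G t p (n + 1) ∧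
       G t p (n + 1) < ld t A n i' + t n + pen p A n))

private noncomputable def fr_lo (x : Fin 3 → ℝ) : ℝ := min (x 0) (min (x 1) (x 2))

private noncomputable def fr_hi (x : Fin 3 → ℝ) : ℝ := max (x 0) (max (x 1) (x 2))

private theorem fr_lo_le (x : Fin 3 → ℝ) (k : Fin 3) : fr_lo x ≤ x k := by
  unfold fr_lo
  fin_cases k
  · exact min_le_left _ _
  · exact (min_le_right _ _).trans (min_le_left _ _)
  · exact (min_le_right _ _).trans (min_le_right _ _)

private theorem fr_le_hi (x : Fin 3 → ℝ) (k : Fin 3) : x k ≤ fr_hi x := by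
  unfold fr_hi
  fin_cases k
  · exact le_max_left _ _
  · exact (le_max_left _ _).trans (le_max_right _ _)
  · exact (le_max_right _ _).trans (le_max_right _ _)

private theorem fr_le_lo {x : Fin 3 → ℝ} {z : ℝ} (h : ∀ k, z ≤ x k) : z ≤ fr_lo x :=
  le_min (h 0) (le_min (h 1) (h 2))

private theorem fr_hi_le {x : Fin 3 → ℝ} {z : ℝ} (h : ∀ k, x k ≤ z) : fr_hi x ≤ z :=
  max_le (h 0) (max_le (h 1) (h 2))

private theorem fr_lo_cases (x : Fin 3 → ℝ) :
    fr_lo x = x 0 ∨ fr_lo x = x 1 ∨ fr_lo x = x 2 := by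
  unfold fr_lo
  rcases min_choice (x 0) (min (x 1) (x 2)) with h | h
  · exact Or.inl h
  · rcases min_choice (x 1) (x 2) with h' | h'
    · exact Or.inr (Or.inl (h.trans h'))
    · exact Or.inr (Or.inr (h.trans h'))

private theorem fr_hi_cases (x : Fin 3 → ℝ) :
    fr_hi x = x 0 ∨ fr_hi x = x 1 ∨ fr_hi x = x 2 := by
  unfold fr_hi
  rcases max_choice (x 0) (max (x 1) (x 2)) with h | h
  · exact Or.inl h
  · rcases max_choice (x 1) (x 2) with h' | h'
    · exact Or.inr (Or.inl (h.trans h'))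
    · exact Or.inr (Or.inr (h.trans h'))

private theorem fr_ord (x : Fin 3 → ℝ) :
    fr_lo x ≤ x 0 + x 1 + x 2 - fr_hi x - fr_lo x ∧
      x 0 + x 1 + x 2 - fr_hi x - fr_lo x ≤ fr_hi x := by
  have h0 := fr_lo_le x 0
  have h1 := fr_lo_le x 1
  have h2 := fr_lo_le x 2
  have h3 := fr_le_hi x 0
  have h4 := fr_le_hi x 1
  have h5 := fr_le_hi x 2
  constructor
  · rcases fr_hi_cases x with h | h | h <;> linarith
  · rcases fr_lo_cases x with h | h | h <;> linarith

private theorem fr_third : ∀ i i' : Fin 3, i' ≠ i →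
    (Finset.univ : Finset (Fin 3)) = {i, i', -(i + i')} ∧ i ∉ ({i', -(i + i')} : Finset (Fin 3)) ∧
      i' ∉ ({-(i + i')} : Finset (Fin 3)) ∧ -(i + i') ≠ i ∧
      ∀ k, k = i ∨ k = i' ∨ k = -(i + i') := by
  decide

private theorem fr_sorted {x : Fin 3 → ℝ} {i i' : Fin 3} (hne : i' ≠ i) (hi : ∀ k, x i ≤ x k)
    (hi' : ∀ k, k ≠ i → x i' ≤ x k) :
    fr_lo x = x i ∧ x 0 + x 1 + x 2 - fr_hi x - fr_lo x = x i' := by
  have h1 : fr_lo x = x i := le_antisymm (fr_lo_le x i) (fr_le_lo hi)
  obtain ⟨hu, hn1, hn2, hn3, hall⟩ := fr_third i i' hne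
  have h2 : fr_hi x = x (-(i + i')) := by
    refine le_antisymm (fr_hi_le ?_) (fr_le_hi x _)
    intro k
    rcases hall k with h | h | h
    · rw [h]
      exact hi _
    · rw [h]
      exact hi' _ hn3
    · rw [h]
  have h3 : x 0 + x 1 + x 2 = x i + (x i' + x (-(i + i'))) := by
    rw [← Fin.sum_univ_three x, hu, Finset.sum_insert hn1, Finset.sum_insert hn2,
      Finset.sum_singleton]
  refine ⟨h1, ?_⟩
  rw [h1, h2, h3]
  ring

private theorem fr_ld_succ (t : ℕ → ℝ) (A : ℕ → Option (Fin 3)) (n : ℕ) (k : Fin 3) :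
    ld t A (n + 1) k = ld t A n k + if A n = some k then t n else 0 := by
  unfold ld
  rw [Finset.sum_range_succ]

theorem exists_run {t p : ℕ → ℝ} {A : ℕ → Option (Fin 3)} {N : ℕ} (ht : ∀ n, 0 < t n)
    (hp : ∀ n, 0 < p n) (hR : ∀ n < N, Rule t p A n) :
    ∃ a b d : ℕ → ℝ, Run t p A a b d N := by
  have hvol : ∀ n, vol t A n = ld t A n 0 + ld t A n 1 + ld t A n 2 := fun n => vol_eq
  have hzero : ∀ k, ld t A 0 k = 0 := by
    intro k
    unfold ld
    simp
  have hnone : ∀ n, A n = none → ld t A (n + 1) = ld t A n := by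
    intro n hn
    funext k
    rw [fr_ld_succ, hn, if_neg (by simp), add_zero]
  have hsame : ∀ n j, A n = some j → ld t A (n + 1) j = ld t A n j + t n := by
    intro n j hn
    rw [fr_ld_succ, hn, if_pos rfl]
  have hother : ∀ n j k, A n = some j → k ≠ j → ld t A (n + 1) k = ld t A n k := by
    intro n j k hn hk
    rw [fr_ld_succ, hn, if_neg, add_zero]
    intro h
    exact hk (Option.some_injective _ h).symm
  have hhi : ∀ n j, A n = some j →
      fr_hi (ld t A (n + 1)) = max (fr_hi (ld t A n)) (ld t A n j + t n) := by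
    intro n j hn
    apply le_antisymm
    · apply fr_hi_le
      intro k
      by_cases hk : k = j
      · rw [hk, hsame n j hn]
        exact le_max_right _ _
      · rw [hother n j k hn hk]
        exact (fr_le_hi _ k).trans (le_max_left _ _)
    · apply max_le
      · apply fr_hi_le
        intro k
        exact (ld_mono ht (Nat.le_succ n) k).trans (fr_le_hi _ k)
      · rw [← hsame n j hn]
        exact fr_le_hi _ j
  refine ⟨fun n => fr_hi (ld t A n), fun n => vol t A n - fr_hi (ld t A n) - fr_lo (ld t A n),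
    fun n => fr_lo (ld t A n), ⟨ht, hp, ?_, ?_, ?_, ?_, ?_, ?_⟩⟩
  · change fr_hi (ld t A 0) = 0
    unfold fr_hi
    rw [hzero 0, hzero 1, hzero 2, max_self, max_self]
  · change fr_lo (ld t A 0) = 0
    unfold fr_lo
    rw [hzero 0, hzero 1, hzero 2, min_self, min_self]
  · intro n _
    change 0 ≤ fr_lo (ld t A n) ∧
      fr_lo (ld t A n) ≤ vol t A n - fr_hi (ld t A n) - fr_lo (ld t A n) ∧
      vol t A n - fr_hi (ld t A n) - fr_lo (ld t A n) ≤ fr_hi (ld t A n)
    rw [hvol]
    exact ⟨fr_le_lo fun k => ld_nonneg ht k, fr_ord _⟩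
  · intro n _
    change vol t A n = fr_hi (ld t A n) +
      (vol t A n - fr_hi (ld t A n) - fr_lo (ld t A n)) + fr_lo (ld t A n)
    ring
  · intro n _
    rfl
  · intro n hn
    obtain ⟨i, i', hne, hi, hi', hcase⟩ := hR n hn
    obtain ⟨hlo, hmid⟩ := fr_sorted hne hi hi'
    rw [← hvol] at hmid
    change (A n = none ∧ fr_hi (ld t A (n + 1)) = fr_hi (ld t A n) ∧
        fr_lo (ld t A (n + 1)) = fr_lo (ld t A n) ∧
        (p n ≤ ga * t n ∨ (ga * t n < p n ∧ G t p (n + 1) < fr_lo (ld t A n) + t n + pen p A n))) ∨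
      (A n ≠ none ∧ ga * t n < p n ∧
        vol t A n - fr_hi (ld t A n) - fr_lo (ld t A n) + t n + pen p A n ≤ G t p (n + 1) ∧
        fr_hi (ld t A (n + 1)) = max (fr_hi (ld t A n))
          (vol t A n - fr_hi (ld t A n) - fr_lo (ld t A n) + t n) ∧
        fr_lo (ld t A (n + 1)) = fr_lo (ld t A n)) ∨
      (A n ≠ none ∧ ga * t n < p n ∧ fr_lo (ld t A n) + t n + pen p A n ≤ G t p (n + 1) ∧
        G t p (n + 1) < vol t A n - fr_hi (ld t A n) - fr_lo (ld t A n) + t n + pen p A n ∧
        fr_hi (ld t A (n + 1)) = max (fr_hi (ld t A n)) (fr_lo (ld t A n) + t n) ∧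
        fr_lo (ld t A (n + 1)) = min (vol t A n - fr_hi (ld t A n) - fr_lo (ld t A n))
          (fr_lo (ld t A n) + t n))
    rw [hmid, hlo]
    rcases hcase with ⟨h1, h2⟩ | ⟨h1, h2, h3⟩ | ⟨h1, h2, h3⟩ | ⟨h1, h2, h3, h4⟩
    · left
      rw [hnone n h1, hlo]
      exact ⟨h1, rfl, rfl, Or.inl h2⟩
    · left
      rw [hnone n h1, hlo]
      exact ⟨h1, rfl, rfl, Or.inr ⟨h2, h3⟩⟩
    · right; left
      refine ⟨by rw [h1]; simp, h2, h3, hhi n i' h1, ?_⟩
      apply le_antisymm
      · refine (fr_lo_le _ i).trans ?_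
        rw [hother n i' i h1 (Ne.symm hne)]
      · apply fr_le_lo
        intro k
        exact (hi k).trans (ld_mono ht (Nat.le_succ n) k)
    · right; right
      refine ⟨by rw [h1]; simp, h2, h3, h4, hhi n i h1, ?_⟩
      apply le_antisymm
      · apply le_min
        · refine (fr_lo_le _ i').trans ?_
          rw [hother n i i' h1 hne]
        · refine (fr_lo_le _ i).trans ?_
          rw [hsame n i h1]
      · apply fr_le_lo
        intro k
        by_cases hk : k = i
        · rw [hk, hsame n i h1]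
          exact min_le_right _ _
        · rw [hother n i k h1 hk]
          exact (min_le_left _ _).trans (hi' k hk)

end Pool.Agent.R3
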