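import Pool.Agent.R3.Defs

/-!
# Module R3/GBasic

Elementary properties of loads, makespan, volume and of the least modified cost `G`.

PROOF. `Finset.sum_range_succ` and `Finset.sum_le_sum_of_subset_of_nonneg`. `vol_eq`: sum over
`Fin 3` of `if f k = some i then t k else 0` is `if f k = none then 0 else t k`
(`Fin.sum_univ_three`, cases on `f k`). `le_mk`: a single term of a sum of nonnegative terms.
`exists_G`: the set of the values `g t p f n` is finite, because `g t p f n` depends only on the
restriction of `f` to `range n`: it is the image of the finite type `Fin n → Option (Fin 3)` under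
`h ↦ g t p (fun k => if hk : k < n then h ⟨k, hk⟩ else none) n`; a finite nonempty set of reals
contains its infimum (`Set.Nonempty.csInf_mem`). `G_le`: `ciInf_le` with the lower bound `0`
(`c - 3 * ga > 0`). `G_mono` and `G_cheap`: take `f` with `g f (n+1) = G (n+1)` and use
`g_succ_none`, `g_succ_some`. `G_succ_le`: take `f` with `g f n = G n` and redefine `f n := none`
(`g_congr`).
-/

set_option autoImplicit false

namespace Pool.Agent.R3

open Finset

section

variable {t p : ℕ → ℝ} {f f' : ℕ → Option (Fin 3)} {n : ℕ}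

theorem ld_nonneg (ht : ∀ n, 0 < t n) (i : Fin 3) : 0 ≤ ld t f n i := by
  unfold ld
  refine sum_nonneg fun k _ => ?_
  split_ifs
  · exact (ht k).le
  · exact le_rfl

theorem ld_mono (ht : ∀ n, 0 < t n) {n m : ℕ} (h : n ≤ m) (i : Fin 3) :
    ld t f n i ≤ ld t f m i := by
  unfold ld
  refine sum_le_sum_of_subset_of_nonneg (range_subset_range.2 h) fun k _ _ => ?_
  split_ifs
  · exact (ht k).le
  · exact le_rfl

theorem ld_le_mk (i : Fin 3) : ld t f n i ≤ mk t f n := by
  unfold mk
  fin_cases i
  · exact le_max_left _ _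
  · exact (le_max_left _ _).trans (le_max_right _ _)
  · exact (le_max_right _ _).trans (le_max_right _ _)

theorem mk_nonneg (ht : ∀ n, 0 < t n) : 0 ≤ mk t f n :=
  (ld_nonneg ht 0).trans (ld_le_mk 0)

theorem mk_mono (ht : ∀ n, 0 < t n) {n m : ℕ} (h : n ≤ m) : mk t f n ≤ mk t f m := by
  unfold mk
  exact max_le_max (ld_mono ht h 0) (max_le_max (ld_mono ht h 1) (ld_mono ht h 2))

theorem vol_eq : vol t f n = ld t f n 0 + ld t f n 1 + ld t f n 2 := by
  unfold vol ld
  rw [← sum_add_distrib, ← sum_add_distrib]
  refine sum_congr rfl fun k _ => ?_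
  rcases f k with _ | i
  · simp
  · fin_cases i <;> simp

theorem vol_nonneg (ht : ∀ n, 0 < t n) : 0 ≤ vol t f n := by
  unfold vol
  refine sum_nonneg fun k _ => ?_
  split_ifs
  · exact le_rfl
  · exact (ht k).le

theorem vol_mono (ht : ∀ n, 0 < t n) {n m : ℕ} (h : n ≤ m) : vol t f n ≤ vol t f m := by
  unfold vol
  refine sum_le_sum_of_subset_of_nonneg (range_subset_range.2 h) fun k _ _ => ?_
  split_ifs
  · exact le_rfl
  · exact (ht k).le

theorem pen_nonneg (hp : ∀ n, 0 < p n) : 0 ≤ pen p f n := by
  unfold pen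
  refine sum_nonneg fun k _ => ?_
  split_ifs
  · exact (hp k).le
  · exact le_rfl

theorem vol_le : vol t f n ≤ 3 * mk t f n := by
  have h0 := ld_le_mk (t := t) (f := f) (n := n) 0
  have h1 := ld_le_mk (t := t) (f := f) (n := n) 1
  have h2 := ld_le_mk (t := t) (f := f) (n := n) 2
  rw [vol_eq]
  linarith

theorem le_mk (ht : ∀ n, 0 < t n) {k : ℕ} (hk : k < n) (hf : f k ≠ none) :
    t k ≤ mk t f n := by
  obtain ⟨i, hi⟩ := Option.ne_none_iff_exists'.1 hf
  refine le_trans ?_ (ld_le_mk i)
  unfold ld
  have h1 : t k = if f k = some i then t k else 0 := by rw [if_pos hi]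
  rw [h1]
  refine single_le_sum (f := fun k => if f k = some i then t k else 0) (fun j _ => ?_)
    (mem_range.2 hk)
  show 0 ≤ if f j = some i then t j else 0
  split_ifs
  · exact (ht j).le
  · exact le_rfl

theorem vol_succ_none (h : f n = none) : vol t f (n + 1) = vol t f n := by
  unfold vol
  rw [sum_range_succ, if_pos h, add_zero]

theorem vol_succ_some (h : f n ≠ none) : vol t f (n + 1) = vol t f n + t n := by
  unfold vol
  rw [sum_range_succ, if_neg h]

theorem pen_succ_none (h : f n = none) : pen p f (n + 1) = pen p f n + p n := by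
  unfold pen
  rw [sum_range_succ, if_pos h]

theorem pen_succ_some (h : f n ≠ none) : pen p f (n + 1) = pen p f n := by
  unfold pen
  rw [sum_range_succ, if_neg h, add_zero]

theorem ld_succ_none (h : f n = none) (i : Fin 3) : ld t f (n + 1) i = ld t f n i := by
  unfold ld
  rw [sum_range_succ, h, if_neg (by simp), add_zero]

theorem mk_succ_none (h : f n = none) : mk t f (n + 1) = mk t f n := by
  unfold mk
  rw [ld_succ_none h, ld_succ_none h, ld_succ_none h]

theorem g_congr (h : ∀ k < n, f k = f' k) : g t p f n = g t p f' n := by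
  have hl : ∀ i, ld t f n i = ld t f' n i := by
    intro i
    unfold ld
    exact sum_congr rfl fun k hk => by rw [h k (mem_range.1 hk)]
  have hv : vol t f n = vol t f' n := by
    unfold vol
    exact sum_congr rfl fun k hk => by rw [h k (mem_range.1 hk)]
  have hp : pen p f n = pen p f' n := by
    unfold pen
    exact sum_congr rfl fun k hk => by rw [h k (mem_range.1 hk)]
  unfold g mk
  rw [hl, hl, hl, hv, hp]

theorem c3_pos : 0 < c - 3 * ga := by
  rw [c_sub]
  have := ga_lt
  have := e_pos
  linarith

theorem g_nonneg (ht : ∀ n, 0 < t n) (hp : ∀ n, 0 < p n) : 0 ≤ g t p f n := by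
  unfold g
  have h1 := mul_nonneg c3_pos.le (mk_nonneg (f := f) (n := n) ht)
  have h2 := mul_nonneg ga_pos.le (vol_nonneg (f := f) (n := n) ht)
  have h3 := mul_nonneg c_pos.le (pen_nonneg (f := f) (n := n) hp)
  linarith

theorem G_le (ht : ∀ n, 0 < t n) (hp : ∀ n, 0 < p n) : G t p n ≤ g t p f n := by
  unfold G
  exact ciInf_le ⟨0, by rintro _ ⟨f, rfl⟩; exact g_nonneg ht hp⟩ f

theorem exists_G (t p : ℕ → ℝ) (n : ℕ) : ∃ f : ℕ → Option (Fin 3), g t p f n = G t p n := by
  have hfin : (Set.range fun f : ℕ → Option (Fin 3) => g t p f n).Finite := by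
    refine (Set.finite_range fun h : Fin n → Option (Fin 3) =>
      g t p (fun k => if hk : k < n then h ⟨k, hk⟩ else none) n).subset ?_
    rintro _ ⟨f, rfl⟩
    refine ⟨fun i => f i, ?_⟩
    refine g_congr fun k hk => ?_
    rw [dif_pos hk]
  have hne : (Set.range fun f : ℕ → Option (Fin 3) => g t p f n).Nonempty :=
    Set.range_nonempty _
  obtain ⟨f, hf⟩ := hne.csInf_mem hfin
  exact ⟨f, hf⟩

theorem g_succ_none (h : f n = none) : g t p f (n + 1) = g t p f n + c * p n := by
  unfold g
  rw [mk_succ_none h, vol_succ_none h, pen_succ_none h]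
  ring

theorem g_succ_some (ht : ∀ n, 0 < t n) (h : f n ≠ none) :
    g t p f n + ga * t n ≤ g t p f (n + 1) := by
  unfold g
  rw [vol_succ_some h, pen_succ_some h]
  have h1 := mul_le_mul_of_nonneg_left (mk_mono (f := f) ht (Nat.le_succ n)) c3_pos.le
  have h2 : ga * (vol t f n + t n) = ga * vol t f n + ga * t n := by ring
  rw [h2]
  linarith

theorem G_mono (ht : ∀ n, 0 < t n) (hp : ∀ n, 0 < p n) : G t p n ≤ G t p (n + 1) := by
  obtain ⟨f, hf⟩ := exists_G t p (n + 1)
  rw [← hf]
  have h0 := G_le (f := f) (n := n) ht hp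
  by_cases h : f n = none
  · rw [g_succ_none h]
    have := mul_pos c_pos (hp n)
    linarith
  · have h1 := g_succ_some (p := p) ht h
    have := mul_pos ga_pos (ht n)
    linarith

theorem G_cheap (ht : ∀ n, 0 < t n) (hp : ∀ n, 0 < p n) (h : p n ≤ ga * t n) :
    G t p n + p n ≤ G t p (n + 1) := by
  obtain ⟨f, hf⟩ := exists_G t p (n + 1)
  rw [← hf]
  have h0 := G_le (f := f) (n := n) ht hp
  by_cases h1 : f n = none
  · rw [g_succ_none h1]
    have h2 : 1 * p n ≤ c * p n := mul_le_mul_of_nonneg_right (by
      have := c_gt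
      linarith) (hp n).le
    linarith
  · have h2 := g_succ_some (p := p) ht h1
    linarith

theorem G_succ_le (ht : ∀ n, 0 < t n) (hp : ∀ n, 0 < p n) :
    G t p (n + 1) ≤ G t p n + c * p n := by
  obtain ⟨f, hf⟩ := exists_G t p n
  have h1 : g t p (Function.update f n none) n = g t p f n :=
    g_congr fun k hk => Function.update_of_ne (ne_of_lt hk) _ _
  have h2 : g t p (Function.update f n none) (n + 1) =
      g t p (Function.update f n none) n + c * p n :=
    g_succ_none (Function.update_self _ _ _)
  have h3 := G_le (f := Function.update f n none) (n := n + 1) ht hp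
  rw [h2, h1, hf] at h3
  exact h3

/-- The modified cost is at most `c` times the cost. -/
theorem g_le : g t p f n ≤ c * (mk t f n + pen p f n) := by
  unfold g
  have h1 := mul_le_mul_of_nonneg_left (vol_le (t := t) (f := f) (n := n)) ga_pos.le
  linarith [show (c - 3 * ga) * mk t f n = c * mk t f n - ga * (3 * mk t f n) by ring,
    show c * (mk t f n + pen p f n) = c * mk t f n + c * pen p f n by ring]

end

end Pool.Agent.R3
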