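import Pool.Agent.R3.CaseI
import Pool.Agent.R3.CaseII

/-!
# Module R3/Induct

The two invariants by induction.

PROOF. `inv2`: if `d n = 0` use `inv2_small` (`0 ≤ ga * vol`). Otherwise `Run.last` gives `j`.
If some `k ∈ RO A f n` with `j < k` is expensive (`ga * t k < p k`), let `i` be the largest
expensive job in `RO A f n` (`Finset.exists_max_image` on the filter); `i ≥ k > j`, `d i = d n`
(last clause, `i < n`), use `caseII`. Otherwise `caseI`.
`hinv`: induction on `n`. `HInv 0`: `a 0 = 0`, `pen p A 0 = 0`, `0 ≤ G t p 0` (`exists_G`, `g = 0` for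
`n = 0`, all sums are empty). Step `n → n + 1 ≤ N`: (`inv`) by `h.step n`:
 rejected and cheap: `G_cheap`, `pen_succ_none`;
 rejected and expensive with `G (n+1) < d n + t n + pen A n`: let `f` with `g f (n+1) = G (n+1)`
 (`exists_G`); by `inv2` `f n = none`, so `G (n+1) = g f n + c * p n ≥ G n + c * p n`
 (`g_succ_none`, `G_le`), which gives both the new `forced` fact and
 `a n + pen A n + p n ≤ G n + c * p n ≤ G (n+1)`;
 accepted: `pen_succ_some`, `a (n+1) = max (a n) (l + t n)` with `l + t n + pen A n ≤ G (n+1)`
 and `a n + pen A n ≤ G n ≤ G (n+1)` (`G_mono`).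
(If the job is rejected and `ga * t n < p n`, the first alternative of `step` has the second form.)
-/

set_option autoImplicit false

namespace Pool.Agent.R3

open Finset

section

variable {t p : ℕ → ℝ} {A f : ℕ → Option (Fin 3)} {a b d : ℕ → ℝ} {N n : ℕ}

theorem inv2 (h : Run t p A a b d N) (hn : n < N) (hI : HInv t p A a d n)
    (hf : f n ≠ none) : d n + t n + pen p A n ≤ g t p f (n + 1) := by
  by_cases hd : d n = 0
  · refine inv2_small h hn hI hf ?_
    rw [hd]
    exact mul_nonneg ga_pos.le (vol_nonneg h.tpos)
  · obtain ⟨j, hj, hAj, hb, hdb, hV, hlast⟩ := h.last hn.le hd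
    by_cases hex : ∃ k ∈ RO A f n, j < k ∧ ga * t k < p k
    · obtain ⟨i, hiS, hmax⟩ := Finset.exists_max_image
        ((RO A f n).filter fun k => j < k ∧ ga * t k < p k) id (by
          obtain ⟨k, hk, hk'⟩ := hex
          exact ⟨k, mem_filter.2 ⟨hk, hk'⟩⟩)
      rw [mem_filter] at hiS
      obtain ⟨hi, hji, hfi⟩ := hiS
      refine caseII h hn hI hf hi hfi (fun k hk hik => ?_) (hlast i hji (mem_RO.1 hi).1.le)
      by_contra hcon
      have := hmax k (mem_filter.2 ⟨hk, hji.trans hik, not_le.1 hcon⟩)
      simp only [id] at this
      omega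
    · refine caseI h hn hI hf hj hAj hb hdb hV fun k hk hjk => ?_
      by_contra hcon
      exact hex ⟨k, hk, hjk, not_le.1 hcon⟩

theorem hinv (h : Run t p A a b d N) (hn : n ≤ N) : HInv t p A a d n := by
  induction n with
  | zero =>
    refine ⟨fun k hk => ?_, fun k hk => absurd hk (Nat.not_lt_zero k)⟩
    have hk0 : k = 0 := Nat.le_zero.1 hk
    subst hk0
    obtain ⟨f, hf⟩ := exists_G t p 0
    have h1 : pen p A 0 = 0 := by simp [pen]
    have h2 := mk_nonneg (f := f) (n := 0) h.tpos
    have h3 := vol_nonneg (f := f) (n := 0) h.tpos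
    have h4 := pen_nonneg (f := f) (n := 0) h.ppos
    have h5 := c_gt
    have h6 := ga_lt
    have h7 := ga_pos
    have h8 : 0 ≤ (c - 3 * ga) * mk t f 0 := mul_nonneg (by linarith) h2
    have h9 : 0 ≤ ga * vol t f 0 := mul_nonneg h7.le h3
    have h10 : 0 ≤ c * pen p f 0 := mul_nonneg c_pos.le h4
    rw [h.azero, h1, ← hf]
    unfold g
    linarith
  | succ n ih =>
    have hn' : n < N := hn
    have hI := ih hn'.le
    have h0 := hI.inv n le_rfl
    have hc := c_gt
    have hpn := h.ppos n
    have hG := G_mono (n := n) h.tpos h.ppos
    have key : a (n + 1) + pen p A (n + 1) ≤ G t p (n + 1) ∧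
        (A n = none → ga * t n < p n → G t p n + c * p n < d n + t n + pen p A n) := by
      rcases h.step n hn' with ⟨h1, h2, _, h4⟩ | ⟨h1, _, h3, h4, _⟩ | ⟨h1, _, h3, _, h4, _⟩
      · have hF : ga * t n < p n → G t p (n + 1) < d n + t n + pen p A n ∧
            G t p n + c * p n ≤ G t p (n + 1) := by
          intro hexp
          have h5 : G t p (n + 1) < d n + t n + pen p A n := by
            rcases h4 with h4 | h4
            · exact absurd hexp (not_lt.2 h4)
            · exact h4.2
          refine ⟨h5, ?_⟩
          obtain ⟨f, hf⟩ := exists_G t p (n + 1)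
          have hfn : f n = none := by
            by_contra hcon
            have := inv2 h hn' hI hcon
            rw [hf] at this
            exact absurd h5 (not_lt.2 this)
          have h6 := G_le (f := f) (n := n) h.tpos h.ppos
          rw [← hf, g_succ_none hfn]
          linarith
        refine ⟨?_, fun _ hexp => ?_⟩
        · rw [h2, pen_succ_none h1]
          rcases le_or_gt (p n) (ga * t n) with h5 | h5
          · have := G_cheap h.tpos h.ppos h5
            linarith
          · have h6 := (hF h5).2
            have h7 : p n ≤ c * p n := by nlinarith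
            linarith
        · have := hF hexp
          linarith [this.1, this.2]
      · refine ⟨?_, fun h5 => absurd h5 h1⟩
        rw [h4, pen_succ_some h1]
        rcases le_total (a n) (b n + t n) with h5 | h5
        · rw [max_eq_right h5]
          linarith
        · rw [max_eq_left h5]
          linarith
      · refine ⟨?_, fun h5 => absurd h5 h1⟩
        rw [h4, pen_succ_some h1]
        rcases le_total (a n) (d n + t n) with h5 | h5
        · rw [max_eq_right h5]
          linarith
        · rw [max_eq_left h5]
          linarith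
    refine ⟨fun k hk => ?_, fun k hk => ?_⟩
    · rcases Nat.lt_or_ge n k with h1 | h1
      · have : k = n + 1 := by omega
        subst this
        exact key.1
      · exact hI.inv k h1
    · rcases Nat.lt_or_ge k n with h1 | h1
      · exact hI.forced k h1
      · have : k = n := by omega
        subst this
        exact key.2

/-- The cost of the algorithm is at most the least modified cost. -/
theorem run_le (h : Run t p A a b d N) : mk t A N + pen p A N ≤ G t p N := by
  have h1 := (hinv h le_rfl).inv N le_rfl
  rw [h.mks N le_rfl]
  exact h1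

end

end Pool.Agent.R3
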