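import Pool.Agent.R3.GBasic

/-!
# Module R3/LastMin

The last time the lowest machine was used.

PROOF. Induction on `n` with `Run.step`. If `n + 1 ≤ N` and `d (n + 1) ≠ 0`: in the first two
alternatives of `step` we have `d (n + 1) = d n` and the `j` for `n` works; in the third take
`j = n`: `d (n + 1) = min (b n) (d n + t n) ≤ b n`, `vol t A (n + 1) = vol t A n + t n =
a n + b n + d n + t n ≥ 2 * b n + d n + t n` (`ord`, `sum`, `vol_succ_some`).
-/

set_option autoImplicit false

namespace Pool.Agent.R3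

open Finset

section

variable {t p : ℕ → ℝ} {A : ℕ → Option (Fin 3)} {a b d : ℕ → ℝ} {N : ℕ}

/-- Accepted jobs are not cheap. -/
theorem Run.acc (h : Run t p A a b d N) {k : ℕ} (hk : k < N) (hA : A k ≠ none) :
    ga * t k < p k := by
  rcases h.step k hk with ⟨h1, _⟩ | ⟨_, h2, _⟩ | ⟨_, h2, _⟩
  · exact absurd h1 hA
  · exact h2
  · exact h2

theorem Run.three_d (h : Run t p A a b d N) {n : ℕ} (hn : n ≤ N) : 3 * d n ≤ vol t A n := by
  have h1 := h.ord n hn
  have h2 := h.sum n hn
  linarith

/-- The last time `j` at which the lowest machine was used. -/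
theorem Run.last (h : Run t p A a b d N) {n : ℕ} (hn : n ≤ N) (hd : d n ≠ 0) :
    ∃ j < n, A j ≠ none ∧ G t p (j + 1) < b j + t j + pen p A j ∧ d n ≤ b j ∧
      2 * b j + d j + t j ≤ vol t A (j + 1) ∧ ∀ i, j < i → i ≤ n → d i = d n := by
  induction n with
  | zero => exact absurd h.dzero hd
  | succ n ih =>
    have hn' : n < N := hn
    have key : d (n + 1) = d n → ∃ j < n + 1, A j ≠ none ∧
        G t p (j + 1) < b j + t j + pen p A j ∧ d (n + 1) ≤ b j ∧
        2 * b j + d j + t j ≤ vol t A (j + 1) ∧ ∀ i, j < i → i ≤ n + 1 → d i = d (n + 1) := by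
      intro he
      obtain ⟨j, hj, h1, h2, h3, h4, h5⟩ := ih hn'.le (by rwa [he] at hd)
      refine ⟨j, by omega, h1, h2, by rw [he]; exact h3, h4, fun i hi hin => ?_⟩
      rcases Nat.lt_or_ge i (n + 1) with h6 | h6
      · rw [he]
        exact h5 i hi (by omega)
      · have h7 : i = n + 1 := by omega
        rw [h7]
    rcases h.step n hn' with ⟨_, _, h3, _⟩ | ⟨_, _, _, _, h5⟩ | ⟨h1, _, _, h4, _, h6⟩
    · exact key h3
    · exact key h5
    · refine ⟨n, by omega, h1, h4, ?_, ?_, fun i hi hin => ?_⟩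
      · rw [h6]
        exact min_le_left _ _
      · rw [vol_succ_some h1, h.sum n hn'.le]
        have h7 := h.ord n hn'.le
        linarith [h7.2.2]
      · have h7 : i = n + 1 := by omega
        rw [h7]

end

end Pool.Agent.R3
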