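import Pool.Agent.R3.FromRule

/-!
# Module R3/Seq

The algorithm on sequences.

PROOF. `G_congr`: `ld`, `mk`, `vol`, `pen`, `g` depend only on `t k`, `p k` for `k < n`
(`Finset.sum_congr`). `asg_congr`: induction on `n`, `dec` at step `n` uses `ld t (asg n) n`,
`pen p (asg n) n` (jobs `< n`), `G t p (n+1)`, `t n`, `p n`. `asg_stable`: `asg t p n k = alg k` for
`k < n` by induction (`Function.update`). Therefore `ld t (asg t p n) n = ld t (alg t p) n` and
`pen p (asg t p n) n = pen p (alg t p) n` (`sum_congr`), and `rule_alg` is the definition of `dec`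
(`exists_idx` provides the two machines: a minimum over `Fin 3` and a minimum over the other
machines, `Finite.exists_min`/`Finset.exists_min_image`).
-/

set_option autoImplicit false

namespace Pool.Agent.R3

open Finset

theorem exists_idx (x : Fin 3 → ℝ) : ∃ q : Fin 3 × Fin 3, q.2 ≠ q.1 ∧ (∀ k, x q.1 ≤ x k) ∧
    ∀ k, k ≠ q.1 → x q.2 ≤ x k := by
  obtain ⟨i, hi⟩ := Finite.exists_min x
  have hne : ((univ : Finset (Fin 3)).erase i).Nonempty := by
    rw [← card_pos, card_erase_of_mem (mem_univ i), card_univ, Fintype.card_fin]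
    norm_num
  obtain ⟨j, hj, hj'⟩ := exists_min_image _ x hne
  exact ⟨(i, j), (mem_erase.1 hj).1, hi, fun k hk => hj' k (mem_erase.2 ⟨hk, mem_univ k⟩)⟩

open Classical in
/-- The decision: loads `x`, penalties `P`, value `Gn` of `G` including the new job `(tn, pn)`. -/
noncomputable def dec (x : Fin 3 → ℝ) (P Gn tn pn : ℝ) : Option (Fin 3) :=
  if pn ≤ ga * tn then none
  else if Gn < x (exists_idx x).choose.1 + tn + P then none
  else if x (exists_idx x).choose.2 + tn + P ≤ Gn then some (exists_idx x).choose.2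
  else some (exists_idx x).choose.1

/-- The assignment after `n` steps. -/
noncomputable def asg (t p : ℕ → ℝ) : ℕ → ℕ → Option (Fin 3)
  | 0 => fun _ => none
  | n + 1 => Function.update (asg t p n) n
      (dec (ld t (asg t p n) n) (pen p (asg t p n) n) (G t p (n + 1)) (t n) (p n))

/-- The assignment of the algorithm. -/
noncomputable def alg (t p : ℕ → ℝ) (k : ℕ) : Option (Fin 3) := asg t p (k + 1) k

private theorem ld_congr' {t t' : ℕ → ℝ} {f f' : ℕ → Option (Fin 3)} {n : ℕ}
    (ht : ∀ k < n, t k = t' k) (hf : ∀ k < n, f k = f' k) : ld t f n = ld t' f' n := by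
  funext i
  unfold ld
  refine sum_congr rfl fun k hk => ?_
  rw [ht k (mem_range.1 hk), hf k (mem_range.1 hk)]

private theorem pen_congr' {t t' : ℕ → ℝ} {f f' : ℕ → Option (Fin 3)} {n : ℕ}
    (ht : ∀ k < n, t k = t' k) (hf : ∀ k < n, f k = f' k) : pen t f n = pen t' f' n := by
  unfold pen
  refine sum_congr rfl fun k hk => ?_
  rw [ht k (mem_range.1 hk), hf k (mem_range.1 hk)]

private theorem vol_congr' {t t' : ℕ → ℝ} {f f' : ℕ → Option (Fin 3)} {n : ℕ}
    (ht : ∀ k < n, t k = t' k) (hf : ∀ k < n, f k = f' k) : vol t f n = vol t' f' n := by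
  unfold vol
  refine sum_congr rfl fun k hk => ?_
  rw [ht k (mem_range.1 hk), hf k (mem_range.1 hk)]

theorem G_congr {t p t' p' : ℕ → ℝ} {n : ℕ} (ht : ∀ k < n, t k = t' k)
    (hp : ∀ k < n, p k = p' k) : G t p n = G t' p' n := by
  unfold G
  refine congrArg iInf (funext fun f => ?_)
  unfold g mk
  rw [ld_congr' (f := f) (f' := f) ht fun _ _ => rfl, vol_congr' (f := f) (f' := f) ht fun _ _ => rfl,
    pen_congr' (f := f) (f' := f) hp fun _ _ => rfl]

theorem asg_congr {t p t' p' : ℕ → ℝ} {n : ℕ} (ht : ∀ k < n, t k = t' k)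
    (hp : ∀ k < n, p k = p' k) : asg t p n = asg t' p' n := by
  induction n with
  | zero => rfl
  | succ n ih =>
    have ih' := ih (fun k hk => ht k (by omega)) (fun k hk => hp k (by omega))
    have h1 : ld t (asg t' p' n) n = ld t' (asg t' p' n) n :=
      ld_congr' (fun k hk => ht k (by omega)) fun _ _ => rfl
    have h2 : pen p (asg t' p' n) n = pen p' (asg t' p' n) n :=
      pen_congr' (fun k hk => hp k (by omega)) fun _ _ => rfl
    show Function.update (asg t p n) n
      (dec (ld t (asg t p n) n) (pen p (asg t p n) n) (G t p (n + 1)) (t n) (p n)) =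
      Function.update (asg t' p' n) n
      (dec (ld t' (asg t' p' n) n) (pen p' (asg t' p' n) n) (G t' p' (n + 1)) (t' n) (p' n))
    rw [ih', h1, h2, G_congr ht hp, ht n (by omega), hp n (by omega)]

private theorem asg_stable (t p : ℕ → ℝ) (n : ℕ) : ∀ k < n, asg t p n k = alg t p k := by
  induction n with
  | zero => intro k hk; omega
  | succ n ih =>
    intro k hk
    by_cases hkn : k = n
    · subst hkn; rfl
    · show Function.update (asg t p n) n _ k = _
      rw [Function.update_of_ne hkn]
      exact ih k (by omega)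

/-- The decision on job `k` depends only on the jobs up to `k`. -/
theorem alg_congr {t p t' p' : ℕ → ℝ} {k : ℕ} (ht : ∀ i ≤ k, t i = t' i)
    (hp : ∀ i ≤ k, p i = p' i) : alg t p k = alg t' p' k := by
  unfold alg
  rw [asg_congr (n := k + 1) (fun i hi => ht i (by omega)) (fun i hi => hp i (by omega))]

theorem rule_alg (t p : ℕ → ℝ) (n : ℕ) : Rule t p (alg t p) n := by
  have h1 : ld t (asg t p n) n = ld t (alg t p) n :=
    ld_congr' (fun _ _ => rfl) (asg_stable t p n)
  have h2 : pen p (asg t p n) n = pen p (alg t p) n :=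
    pen_congr' (fun _ _ => rfl) (asg_stable t p n)
  have h3 : alg t p n = dec (ld t (alg t p) n) (pen p (alg t p) n) (G t p (n + 1)) (t n) (p n) := by
    rw [← h1, ← h2]
    show Function.update (asg t p n) n _ n = _
    rw [Function.update_self]
  have hq := (exists_idx (ld t (alg t p) n)).choose_spec
  refine ⟨(exists_idx (ld t (alg t p) n)).choose.1, (exists_idx (ld t (alg t p) n)).choose.2,
    hq.1, hq.2.1, hq.2.2, ?_⟩
  rw [h3]
  unfold dec
  by_cases c1 : p n ≤ ga * t n
  · rw [if_pos c1]
    exact Or.inl ⟨rfl, c1⟩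
  · rw [if_neg c1]
    by_cases c2 : G t p (n + 1) <
        ld t (alg t p) n (exists_idx (ld t (alg t p) n)).choose.1 + t n + pen p (alg t p) n
    · rw [if_pos c2]
      exact Or.inr (Or.inl ⟨rfl, not_le.1 c1, c2⟩)
    · rw [if_neg c2]
      by_cases c3 : ld t (alg t p) n (exists_idx (ld t (alg t p) n)).choose.2 + t n +
          pen p (alg t p) n ≤ G t p (n + 1)
      · rw [if_pos c3]
        exact Or.inr (Or.inr (Or.inl ⟨rfl, not_le.1 c1, c3⟩))
      · rw [if_neg c3]
        exact Or.inr (Or.inr (Or.inr ⟨rfl, not_le.1 c1, not_lt.1 c2, not_le.1 c3⟩))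

end Pool.Agent.R3
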