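import Pool.Agent.R3.Decomp
import Pool.Agent.R3.LastMin

/-!
# Module R3/Star

The main estimate of `G` from below.

PROOF. `HInv.pal`: if `p k ≤ ga * t k` use `ga ≤ al`; otherwise `hI.forced` and `hI.inv k`,
`d k ≤ a k` (`ord`) give `c * p k < t k`, multiply by `al` (`c_mul_al`).
`X_le_pen`: termwise `c * (p - ga * t) = c * p - al * t ≤ c * p - p`.
`star`: let `u` with `g u n = G n` (`exists_G`), `M = mk t u n`, `σ = min M (3 * M - VO t A u n)`;
`0 ≤ σ` as `VO ≤ vol u ≤ 3 * M` (`vol_f`, `vol_le`). For `k ∈ RO A u n`: `t k ≤ M` (`le_mk`) and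
`t k ≤ 3 * M - VO` (`VO_add_le`, `vol_le`), so by `hW`: `X (RO) ≤ e * σ`, `X (S ∩ RO) ≤ e * σ`.
`c * X (S ∩ RN) ≤ (c - 1) * ∑_{S ∩ RN} p ≤ (c - 1) * ∑_{RN} p` (`X_le_pen`, `pal`). With `X_split`
and `lower` (`n ≤ N`, hypothesis `Run.acc`):
`G n ≥ pen A n + (c - 3 ga) M + ga V - X RO + (c - 1) QR + e VN
  ≥ pen A n + c X S + (c - 3 ga) M - e (1 + c) σ + ga V + e VN` where `V = vol A n = VO + VN`.
`e * (1 + c) = 1 - ga`, `c - 3 ga = (1 - ga) + e`. Finally
`(1 - ga + e) M - (1 - ga) σ + e VN ≥ e V / 2`: if `2 * M ≥ VO` use `σ ≤ M`; if `2 * M < VO` use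
`σ ≤ 3 M - VO` and `1 - ga ≥ e / 2`.
-/

set_option autoImplicit false

namespace Pool.Agent.R3

open Finset

/-- Property `W` at time `n`: the excess of a set of rejected jobs is at most `e` times the size
of the longest job in it that is not cheap. -/
def W (t p : ℕ → ℝ) (A : ℕ → Option (Fin 3)) (n : ℕ) : Prop :=
  ∀ S ⊆ Rej A n, ∀ B : ℝ, 0 ≤ B → (∀ k ∈ S, ga * t k < p k → t k ≤ B) → X t p S ≤ e * B

section

variable {t p : ℕ → ℝ} {A : ℕ → Option (Fin 3)} {a b d : ℕ → ℝ} {N n : ℕ}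

theorem HInv.mono {t p : ℕ → ℝ} {A : ℕ → Option (Fin 3)} {a d : ℕ → ℝ} {m n : ℕ}
    (hI : HInv t p A a d n) (h : m ≤ n) : HInv t p A a d m :=
  ⟨fun k hk => hI.inv k (hk.trans h), fun k hk => hI.forced k (by omega)⟩

theorem HInv.pal (hI : HInv t p A a d n) (h : Run t p A a b d N) (hn : n ≤ N) :
    ∀ k ∈ Rej A n, p k ≤ al * t k := by
  intro k hk
  obtain ⟨hkn, hAk⟩ := mem_Rej.1 hk
  by_cases hc : p k ≤ ga * t k
  · have h1 : ga ≤ al := by
      have := e_pos
      have := al_sub_e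
      linarith
    have h2 := mul_le_mul_of_nonneg_right h1 (h.tpos k).le
    linarith
  · push Not at hc
    have h1 := hI.forced k hkn hAk hc
    have h2 := hI.inv k hkn.le
    have h3 := h.ord k (hkn.le.trans hn)
    have h4 : c * p k ≤ t k := by linarith [h3.2.1, h3.2.2]
    have h5 := mul_le_mul_of_nonneg_left h4 al_pos.le
    have h6 : al * (c * p k) = p k := by
      rw [← mul_assoc, mul_comm al c, c_mul_al, one_mul]
    linarith

theorem X_le_pen {S : Finset ℕ} (hS : ∀ k ∈ S, p k ≤ al * t k) :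
    c * X t p S ≤ (c - 1) * ∑ k ∈ S, p k := by
  unfold X
  rw [Finset.mul_sum, Finset.mul_sum]
  refine Finset.sum_le_sum fun k hk => ?_
  have h1 := hS k hk
  have h2 : c * (p k - ga * t k) = c * p k - al * t k := by
    rw [mul_sub, ← mul_assoc, c_mul_ga]
  rw [h2]
  linarith

theorem star (h : Run t p A a b d N) (hn : n ≤ N) (hI : HInv t p A a d n) (hW : W t p A n)
    {S : Finset ℕ} (hS : S ⊆ Rej A n) :
    pen p A n + c * X t p S + (ga + e / 2) * vol t A n ≤ G t p n := by
  obtain ⟨u, hu⟩ := exists_G t p n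
  have hlow := lower (f := u) (A := A) (n := n) (p := p) (t := t)
    (fun k hk hA => h.acc (lt_of_lt_of_le hk hn) hA) h.tpos
  have hVO := VO_nonneg (A := A) (f := u) (n := n) h.tpos
  have hVN := VN_nonneg (A := A) (f := u) (n := n) h.tpos
  have hsp := vol_split (t := t) (A := A) (f := u) (n := n)
  have hvf := vol_f (t := t) (A := A) (f := u) (n := n)
  have hvl := vol_le (t := t) (f := u) (n := n)
  have hM := mk_nonneg (f := u) (n := n) h.tpos
  have hRO : 0 ≤ ∑ k ∈ RO A u n, t k := Finset.sum_nonneg fun k _ => (h.tpos k).le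
  have hXs := X_split (t := t) (p := p) (f := u) hS
  rw [← hu]
  unfold g
  set M := mk t u n with hMdef
  set σ : ℝ := min M (3 * M - VO t A u n) with hσ
  have hσ0 : 0 ≤ σ := le_min hM (by linarith)
  have hbig : ∀ k ∈ RO A u n, t k ≤ σ := by
    intro k hk
    have h1 := mem_RO.1 hk
    refine le_min (le_mk h.tpos h1.1 h1.2.2) ?_
    have h2 := VO_add_le h.tpos hk
    linarith
  have hX1 : X t p (RO A u n) ≤ e * σ :=
    hW _ RO_subset σ hσ0 fun k hk _ => hbig k hk
  have hX2 : X t p (S ∩ RO A u n) ≤ e * σ :=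
    hW _ (Finset.inter_subset_left.trans hS) σ hσ0
      fun k hk _ => hbig k (Finset.mem_inter.1 hk).2
  have hX3 : c * X t p (S ∩ RN A u n) ≤ (c - 1) * ∑ k ∈ RN A u n, p k := by
    refine (X_le_pen fun k hk => hI.pal h hn k (hS (Finset.mem_inter.1 hk).1)).trans ?_
    refine mul_le_mul_of_nonneg_left ?_ (by have := c_gt; linarith)
    exact Finset.sum_le_sum_of_subset_of_nonneg Finset.inter_subset_right
      fun k _ _ => (h.ppos k).le
  have hX4 : c * X t p (S ∩ RO A u n) ≤ c * (e * σ) :=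
    mul_le_mul_of_nonneg_left hX2 c_pos.le
  have hc1 := e_mul_c_add
  have hc2 := c_sub
  have he := e_pos
  have he2 := e_lt
  have hga := ga_lt
  -- the final inequality
  have hfin : (1 - ga) * σ + e / 2 * vol t A n ≤ (1 - ga + e) * M + e * VN t A u n := by
    rw [← hsp]
    rcases le_or_gt (VO t A u n) (2 * M) with hc | hc
    · have h1 : (1 - ga) * σ ≤ (1 - ga) * M :=
        mul_le_mul_of_nonneg_left (min_le_left _ _) (by linarith)
      have h2 : e * VO t A u n ≤ e * (2 * M) := mul_le_mul_of_nonneg_left hc he.le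
      have h3 : 0 ≤ e * VN t A u n := mul_nonneg he.le hVN
      linarith
    · have h1 : (1 - ga) * σ ≤ (1 - ga) * (3 * M - VO t A u n) :=
        mul_le_mul_of_nonneg_left (min_le_right _ _) (by linarith)
      have h2 : 0 ≤ (1 - ga - e / 2) * (VO t A u n - 2 * M) :=
        mul_nonneg (by linarith) (by linarith)
      have h3 : 0 ≤ e * VN t A u n := mul_nonneg he.le hVN
      linarith
  have hce : c * (e * σ) + e * σ = (1 - ga) * σ := by
    rw [← hc1]; ring
  rw [hXs, mul_add]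
  have hcM : (c - 3 * ga) * M = (1 - ga + e) * M := by rw [hc2]
  linarith

end

end Pool.Agent.R3
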