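import Pool.Agent.R3.Seq
import Pool.Agent.R3.Induct
import Pool.Agent.H69.Sched.LogAlg

/-!
# Module R3/Upper

The algorithm is `c`-competitive in the sense of `Pool.Agent.H78.Sched`.

PROOF. `load_eq`, `penalty_eq`: induction on `I` (cons), or `List.zipWith` as a map over
`List.range` (`List.ext_getElem`, `Finset.sum_range`/`List.sum_range`): for `σ.length = I.length`
the `k`-th entry is `if σ.getD k none = some i then (I.getD k (1,1)).1 else 0`. A convenient way:
reverse induction (`List.reverseRecOn`), `load_snoc`, `penalty_snoc` (H69/Sched/LogAlg) and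
`Finset.sum_range_succ`, with `List.getD_append` and `List.getD_append_right`.
`cost_eq`: `⨆ i : Fin 3, x i = max (x 0) (max (x 1) (x 2))` (`le_antisymm`, `ciSup_le`, `le_ciSup`).
`run_getD`: `(run onl I).getD k none = onl (I.take (k+1)) = alg (tt I) (pp I) k` for `k < I.length`:
by definition of `run` and `alg_congr` (`(I.take (k+1)).getD i _ = I.getD i _` for `i ≤ k`,
`(I.take (k+1)).length - 1 = k`). So `ld (tt I) (fun k => (run onl I).getD k none) N = ld (tt I) (alg ..) N`
with `N = I.length` (`Finset.sum_congr`), similarly `pen`.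
`competitive`: for every `σ` with `σ.length = I.length`: `exists_run` with `rule_alg` and `run_le`
give `cost I (run onl I) = mk + pen ≤ G ≤ g f N ≤ c * (mk f + pen f) = c * cost I σ` (`G_le`, `g_le`).
Then `le_csInf` as at the end of `competitive_of` in H69/Sched/LogAlg. The sequences `tt I`, `pp I`
are positive: `I.getD k (1,1)` is either a member of `I` or `(1, 1)`.
`R_three_le`: `csInf_le (R_bddBelow 3)`.
-/

set_option autoImplicit false

namespace Pool.Agent.R3

open Finset Pool.Agent.H78.Sched Pool.Agent.H69.Sched

/-- The sequence of the running times of a list. -/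
noncomputable def tt (I : List (ℝ × ℝ)) (k : ℕ) : ℝ := (I.getD k (1, 1)).1

/-- The sequence of the penalties of a list. -/
noncomputable def pp (I : List (ℝ × ℝ)) (k : ℕ) : ℝ := (I.getD k (1, 1)).2

/-- The online algorithm. -/
noncomputable def onl (L : List (ℝ × ℝ)) : Option (Fin 3) := alg (tt L) (pp L) (L.length - 1)

private theorem snoc_cases {I : List (ℝ × ℝ)} {j : ℝ × ℝ} {σ : List (Option (Fin 3))}
    (hσ : σ.length = (I ++ [j]).length) :
    ∃ σ' d, σ = σ' ++ [d] ∧ σ'.length = I.length := by
  have hne : σ ≠ [] := by
    intro h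
    rw [h] at hσ
    simp at hσ
  refine ⟨σ.dropLast, σ.getLast hne, (List.dropLast_append_getLast hne).symm, ?_⟩
  simp at hσ
  simp [hσ]

private theorem getD_snoc_lt {α : Type*} (l : List α) (a b : α) {k : ℕ} (hk : k < l.length) :
    (l ++ [a]).getD k b = l.getD k b := by
  rw [List.getD_append _ _ _ _ hk]

private theorem getD_snoc_len {α : Type*} (l : List α) (a b : α) {k : ℕ} (hk : k = l.length) :
    (l ++ [a]).getD k b = a := by
  subst hk
  rw [List.getD_append_right _ _ _ _ le_rfl]
  simp

theorem load_eq (I : List (ℝ × ℝ)) (σ : List (Option (Fin 3))) (h : σ.length = I.length)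
    (i : Fin 3) : load I σ i = ld (tt I) (fun k => σ.getD k none) I.length i := by
  induction I using List.reverseRecOn generalizing σ with
  | nil => simp [load, ld]
  | append_singleton I j ih =>
    obtain ⟨σ', d, rfl, hσ'⟩ := snoc_cases h
    rw [load_snoc hσ', ih σ' hσ']
    unfold ld
    rw [List.length_append, List.length_singleton, Finset.sum_range_succ]
    congr 1
    · apply Finset.sum_congr rfl
      intro k hk
      rw [Finset.mem_range] at hk
      simp only [tt]
      rw [getD_snoc_lt _ _ _ hk, getD_snoc_lt _ _ _ (by rw [hσ']; exact hk)]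
    · simp only [tt]
      rw [getD_snoc_len _ _ _ rfl, getD_snoc_len _ _ _ hσ'.symm]

theorem penalty_eq (I : List (ℝ × ℝ)) (σ : List (Option (Fin 3))) (h : σ.length = I.length) :
    penalty I σ = pen (pp I) (fun k => σ.getD k none) I.length := by
  induction I using List.reverseRecOn generalizing σ with
  | nil => simp [penalty, pen]
  | append_singleton I j ih =>
    obtain ⟨σ', d, rfl, hσ'⟩ := snoc_cases h
    rw [penalty_snoc hσ', ih σ' hσ']
    unfold pen
    rw [List.length_append, List.length_singleton, Finset.sum_range_succ]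
    congr 1
    · apply Finset.sum_congr rfl
      intro k hk
      rw [Finset.mem_range] at hk
      simp only [pp]
      rw [getD_snoc_lt _ _ _ hk, getD_snoc_lt _ _ _ (by rw [hσ']; exact hk)]
    · simp only [pp]
      rw [getD_snoc_len _ _ _ rfl, getD_snoc_len _ _ _ hσ'.symm]

private theorem iSup_fin_three (x : Fin 3 → ℝ) : (⨆ i : Fin 3, x i) = max (x 0) (max (x 1) (x 2)) := by
  apply le_antisymm
  · apply ciSup_le
    intro i
    fin_cases i
    · exact le_max_left _ _
    · exact (le_max_left _ _).trans (le_max_right _ _)
    · exact (le_max_right _ _).trans (le_max_right _ _)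
  · have hb : BddAbove (Set.range x) := Set.Finite.bddAbove (Set.finite_range x)
    exact max_le (le_ciSup hb 0) (max_le (le_ciSup hb 1) (le_ciSup hb 2))

theorem cost_eq (I : List (ℝ × ℝ)) (σ : List (Option (Fin 3))) (h : σ.length = I.length) :
    cost I σ = mk (tt I) (fun k => σ.getD k none) I.length +
      pen (pp I) (fun k => σ.getD k none) I.length := by
  unfold cost mk
  rw [iSup_fin_three, penalty_eq I σ h]
  simp only [load_eq I σ h]

private theorem getD_take {α : Type*} (l : List α) (b : α) {i k : ℕ} (hik : i ≤ k) :
    (l.take (k + 1)).getD i b = l.getD i b := by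
  rw [List.getD_eq_getElem?_getD, List.getD_eq_getElem?_getD, List.getElem?_take]
  rw [if_pos (by omega)]

theorem run_getD (I : List (ℝ × ℝ)) {k : ℕ} (hk : k < I.length) :
    (run onl I).getD k none = alg (tt I) (pp I) k := by
  have h1 : (run onl I).getD k none = onl (I.take (k + 1)) := by
    unfold run
    rw [List.getD_eq_getElem _ _ (by simpa using hk)]
    simp
  rw [h1]
  unfold onl
  have h2 : (I.take (k + 1)).length - 1 = k := by
    rw [List.length_take]
    omega
  rw [h2]
  apply alg_congr
  · intro i hi
    simp only [tt]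
    rw [getD_take _ _ hi]
  · intro i hi
    simp only [pp]
    rw [getD_take _ _ hi]

private theorem tt_pos {I : List (ℝ × ℝ)} (hI : ∀ j ∈ I, 0 < j.1 ∧ 0 < j.2) (n : ℕ) :
    0 < tt I n := by
  unfold tt
  by_cases h : n < I.length
  · rw [List.getD_eq_getElem _ _ h]
    exact (hI _ (List.getElem_mem h)).1
  · rw [List.getD_eq_default _ _ (by omega)]
    exact one_pos

private theorem pp_pos {I : List (ℝ × ℝ)} (hI : ∀ j ∈ I, 0 < j.1 ∧ 0 < j.2) (n : ℕ) :
    0 < pp I n := by
  unfold pp
  by_cases h : n < I.length
  · rw [List.getD_eq_getElem _ _ h]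
    exact (hI _ (List.getElem_mem h)).2
  · rw [List.getD_eq_default _ _ (by omega)]
    exact one_pos

theorem competitive : Competitive 3 onl c := by
  intro I hI
  have ht := tt_pos hI
  have hp := pp_pos hI
  have hc0 : 0 < c := c_pos
  have h1 : cost I (run onl I) ≤ G (tt I) (pp I) I.length := by
    rw [cost_eq I _ (length_run _ _)]
    obtain ⟨a, b, d, hR⟩ := exists_run (t := tt I) (p := pp I) (A := alg (tt I) (pp I))
      (N := I.length) ht hp (fun n _ => rule_alg _ _ n)
    have h2 := run_le hR
    have h3 : mk (tt I) (fun k => (run onl I).getD k none) I.length =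
        mk (tt I) (alg (tt I) (pp I)) I.length := by
      have : ∀ i, ld (tt I) (fun k => (run onl I).getD k none) I.length i =
          ld (tt I) (alg (tt I) (pp I)) I.length i := by
        intro i
        unfold ld
        apply Finset.sum_congr rfl
        intro k hk
        rw [Finset.mem_range] at hk
        simp only [run_getD I hk]
      unfold mk
      rw [this, this, this]
    have h4 : pen (pp I) (fun k => (run onl I).getD k none) I.length =
        pen (pp I) (alg (tt I) (pp I)) I.length := by
      unfold pen
      apply Finset.sum_congr rfl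
      intro k hk
      rw [Finset.mem_range] at hk
      simp only [run_getD I hk]
    rw [h3, h4]
    exact h2
  unfold opt
  rw [← div_le_iff₀' hc0]
  apply le_csInf
  · exact ⟨_, List.replicate I.length none, by simp, rfl⟩
  · rintro y ⟨σ, hσ, rfl⟩
    rw [div_le_iff₀' hc0, cost_eq I σ hσ]
    exact h1.trans ((G_le ht hp).trans g_le)

theorem R_three_le : R 3 ≤ c := csInf_le (R_bddBelow 3) ⟨onl, competitive⟩

end Pool.Agent.R3
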