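import Pool.Agent.R3.Star

/-!
# Module R3/WClaim

Property `W` holds.

PROOF. `X_le_zero`: termwise. `W_last_of`: let `S' = S.filter (· < i) ⊆ Rej A i`. The jobs of `S`
after `i` have excess `≤ 0`, so `X S ≤ (p i - ga * t i) + X S'`
(write `S` as the disjoint union of `S'`, `{i}` and the rest). By `hI.forced i`:
`c * p i < d i + t i + pen p A i - G t p i`, and `c * ga * t i = al * t i` (`c_mul_ga`); `star` at
`i` (with `HInv.mono`, `hW : W t p A i`) for `S'`. Sum up.
`W_holds`: strong induction on `n` (generalizing `hI`, `hn`). Given `S`, `B`: if no `k ∈ S` satisfies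
`ga * t k < p k`, then `X S ≤ 0 ≤ e * B`. Otherwise let `i` be the largest such `k` in `S`
(`Finset.exists_max_image` with the identity), apply `W_last_of` with `W t p A i` from the
induction hypothesis (`i < n`): `c * X S ≤ (1 - al) * t i + d i - (ga + e/2) * vol t A i ≤
(1 - al) * B`, because `3 * d i ≤ vol t A i` (`Run.three_d`) and `3 * (ga + e / 2) ≥ 1`
(`ga_gt`, `e_gt`); `(1 - al) = c * e` (`c_mul_e`), divide by `c`.
-/

set_option autoImplicit false

namespace Pool.Agent.R3

open Finset

section

variable {t p : ℕ → ℝ} {A : ℕ → Option (Fin 3)} {a b d : ℕ → ℝ} {N n : ℕ}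

theorem X_le_zero {S : Finset ℕ} (hS : ∀ k ∈ S, p k ≤ ga * t k) : X t p S ≤ 0 :=
  sum_nonpos fun k hk => sub_nonpos.2 (hS k hk)

/-- Dropping cheap jobs increases the excess. -/
theorem X_le_filter {S : Finset ℕ} (q : ℕ → Prop) [DecidablePred q]
    (hS : ∀ k ∈ S, ¬ q k → p k ≤ ga * t k) : X t p S ≤ X t p (S.filter q) := by
  have h1 : X t p S = X t p (S.filter q) + X t p (S.filter fun k => ¬ q k) := by
    unfold X
    exact (sum_filter_add_sum_filter_not S q _).symm
  have h2 : X t p (S.filter fun k => ¬ q k) ≤ 0 := by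
    refine X_le_zero fun k hk => ?_
    rw [mem_filter] at hk
    exact hS k hk.1 hk.2
  linarith

theorem W_last_of (h : Run t p A a b d N) (hn : n ≤ N) (hI : HInv t p A a d n)
    {S : Finset ℕ} (hS : S ⊆ Rej A n) {i : ℕ} (hi : i ∈ S) (hW : W t p A i)
    (hf : ga * t i < p i) (hlast : ∀ k ∈ S, i < k → p k ≤ ga * t k) :
    c * X t p S ≤ (1 - al) * t i + d i - (ga + e / 2) * vol t A i := by
  have hin := hS hi
  rw [Rej, mem_filter, mem_range] at hin
  have h1 : X t p S ≤ X t p (S.filter fun k => k ≤ i) :=
    X_le_filter _ fun k hk hki => hlast k hk (not_le.1 hki)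
  have h2 : S.filter (fun k => k ≤ i) = insert i (S.filter fun k => k < i) := by
    ext k
    simp only [mem_filter, mem_insert]
    constructor
    · rintro ⟨hk, hki⟩
      rcases hki.eq_or_lt with h | h
      · exact Or.inl h
      · exact Or.inr ⟨hk, h⟩
    · rintro (rfl | ⟨hk, hki⟩)
      · exact ⟨hi, le_rfl⟩
      · exact ⟨hk, hki.le⟩
  have h3 : X t p (insert i (S.filter fun k => k < i)) =
      (p i - ga * t i) + X t p (S.filter fun k => k < i) := by
    unfold X
    rw [sum_insert]
    simp
  have hS' : (S.filter fun k => k < i) ⊆ Rej A i := by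
    intro k hk
    rw [mem_filter] at hk
    have h4 := hS hk.1
    rw [Rej, mem_filter, mem_range] at h4 ⊢
    exact ⟨hk.2, h4.2⟩
  have h5 := star h (by omega) (hI.mono hin.1.le) hW hS'
  have h6 := hI.forced i hin.1 hin.2 hf
  have h7 : c * X t p S ≤ c * ((p i - ga * t i) + X t p (S.filter fun k => k < i)) := by
    refine mul_le_mul_of_nonneg_left ?_ c_pos.le
    rw [← h3, ← h2]
    exact h1
  have h8 : c * ((p i - ga * t i) + X t p (S.filter fun k => k < i)) =
      c * p i - al * t i + c * X t p (S.filter fun k => k < i) := by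
    rw [← c_mul_ga]
    ring
  linarith

theorem W_holds (h : Run t p A a b d N) (hn : n ≤ N) (hI : HInv t p A a d n) :
    W t p A n := by
  induction n using Nat.strong_induction_on with
  | _ n ih =>
    intro S hS B hB hSB
    by_cases hex : ∃ k ∈ S, ga * t k < p k
    · classical
      have hT : (S.filter fun k => ga * t k < p k).Nonempty := by
        obtain ⟨k, hk, hk'⟩ := hex
        exact ⟨k, mem_filter.2 ⟨hk, hk'⟩⟩
      obtain ⟨i, hi, hmax⟩ := exists_max_image _ (fun k => k) hT
      rw [mem_filter] at hi
      have hlast : ∀ k ∈ S, i < k → p k ≤ ga * t k := by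
        intro k hk hik
        by_contra hc
        have h1 : k ≤ i := hmax k (mem_filter.2 ⟨hk, not_le.1 hc⟩)
        omega
      have hin : i < n := by
        have := hS hi.1
        rw [Rej, mem_filter, mem_range] at this
        exact this.1
      have hW : W t p A i := ih i hin (by omega) (hI.mono hin.le)
      have h1 := W_last_of h hn hI hS hi.1 hW hi.2 hlast
      have h2 := h.sum i (by omega)
      obtain ⟨h3, h4, h5⟩ := h.ord i (by omega)
      have h6 : 3 * d i ≤ vol t A i := by linarith
      have hg := ga_gt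
      have he := e_gt
      have h7 : (ga + e / 2) * (3 * d i) ≤ (ga + e / 2) * vol t A i :=
        mul_le_mul_of_nonneg_left h6 (by linarith)
      have h8 : d i ≤ (ga + e / 2) * (3 * d i) := by nlinarith
      have h9 : (1 - al) * t i ≤ (1 - al) * B :=
        mul_le_mul_of_nonneg_left (hSB i hi.1 hi.2) (by linarith [al_lt])
      have h10 : c * X t p S ≤ c * (e * B) := by
        have : c * (e * B) = (1 - al) * B := by rw [← mul_assoc, c_mul_e]
        linarith
      exact le_of_mul_le_mul_left h10 c_pos
    · push Not at hex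
      exact (X_le_zero hex).trans (mul_nonneg e_pos.le hB)

/-- The estimate with slack, `i` the last job of `S` that is not cheap. -/
theorem W_last (h : Run t p A a b d N) (hn : n ≤ N) (hI : HInv t p A a d n)
    {S : Finset ℕ} (hS : S ⊆ Rej A n) {i : ℕ} (hi : i ∈ S)
    (hf : ga * t i < p i) (hlast : ∀ k ∈ S, i < k → p k ≤ ga * t k) :
    c * X t p S ≤ (1 - al) * t i + d i - (ga + e / 2) * vol t A i := by
  have h1 : i < n := by
    have := hS hi
    rw [Rej, mem_filter, mem_range] at this
    exact this.1
  exact W_last_of h hn hI hS hi (W_holds h (by omega) (hI.mono h1.le)) hf hlast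

end

end Pool.Agent.R3
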